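import Pool.Agent.Lib.MP_3191e9_an_helper66.Tile

/-!
Helper file (helper66) for `MP_3191e9_an`: a countable supremum of continuous affine functions
on an infinite dimensional Hilbert space whose sublevel sets are bounded is not attained at
every point.
-/

open Filter Topology Set
open scoped RealInnerProductSpace

namespace Pool.Agent.Lib.MP_3191e9_an_helper66

variable {H : Type*} [NormedAddCommGroup H] [InnerProductSpace ℝ H]

/-- One step of the walk. -/
theorem exit_step (hH : ¬ FiniteDimensional ℝ H) {ι : Type*} {g : ι → H} {c : ι → ℝ}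
    (hb : ∀ M, Bornology.IsBounded {x | ∀ i, ⟪g i, x⟫ + c i ≤ M})
    {I : H → ι} (hI : ∀ x j, ⟪g j, x⟫ + c j ≤ ⟪g (I x), x⟫ + c (I x))
    (k : ι) (x : H) (F : Submodule ℝ H) [FiniteDimensional ℝ F] (hk : g k ∈ F) {ε : ℝ}
    (hε : 0 < ε) :
    ∃ v ∈ Fᗮ, ⟪g (I (x + v)), x + v⟫ + c (I (x + v)) ≤ ⟪g (I x), x⟫ + c (I x) + ε ∧
      ⟪g k, x + v⟫ + c k < ⟪g (I (x + v)), x + v⟫ + c (I (x + v)) := by
  by_cases hlt : ⟪g k, x⟫ + c k < ⟪g (I x), x⟫ + c (I x)
  · refine ⟨0, Fᗮ.zero_mem, ?_, ?_⟩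
    · rw [add_zero]; linarith
    · rw [add_zero]; exact hlt
  · have heq : ⟪g k, x⟫ + c k = ⟪g (I x), x⟫ + c (I x) := le_antisymm (hI x k) (not_lt.1 hlt)
    obtain ⟨e, heF, hen⟩ := exists_orth hH F (zero_le_one)
    set m : ℝ := ⟪g (I x), x⟫ + c (I x) with hm
    set f : ℝ → ℝ := fun t => ⟪g (I (x + t • e)), x + t • e⟫ + c (I (x + t • e)) with hf
    have hfconv : ConvexOn ℝ univ f := by
      refine ⟨convex_univ, fun s _ t _ a b ha hb hab => ?_⟩
      have h1 : x + (a • s + b • t) • e = a • (x + s • e) + b • (x + t • e) := by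
        have : x = (a + b) • x := by rw [hab, one_smul]
        nth_rw 1 [this]
        simp only [smul_eq_mul]
        module
      simp only [hf]
      set y := x + (a • s + b • t) • e with hy
      have h2 := hI (x + s • e) (I y)
      have h3 := hI (x + t • e) (I y)
      have h4 : ⟪g (I y), y⟫ + c (I y) = a * (⟪g (I y), x + s • e⟫ + c (I y))
          + b * (⟪g (I y), x + t • e⟫ + c (I y)) := by
        nth_rw 2 [h1]
        rw [inner_add_right, real_inner_smul_right, real_inner_smul_right]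
        have : c (I y) = (a + b) * c (I y) := by rw [hab, one_mul]
        nth_rw 1 [this]
        ring
      rw [h4, smul_eq_mul, smul_eq_mul]
      exact add_le_add (mul_le_mul_of_nonneg_left h2 ha) (mul_le_mul_of_nonneg_left h3 hb)
    have hfcont : Continuous f := by
      rw [← continuousOn_univ]
      exact ConvexOn.continuousOn isOpen_univ hfconv
    obtain ⟨R, hR⟩ := (hb (m + 1)).exists_norm_le
    set T : ℝ := |R| + ‖x‖ + 1 with hT
    have hTpos : 0 ≤ T := by positivity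
    have hfT : m + 1 < f T := by
      by_contra hcon
      have hcon' : f T ≤ m + 1 := not_lt.1 hcon
      have h1 : x + T • e ∈ {x | ∀ i, ⟪g i, x⟫ + c i ≤ m + 1} := fun i =>
        (hI (x + T • e) i).trans hcon'
      have h2 := hR _ h1
      have h3 : ‖T • e‖ = T := by
        rw [norm_smul, hen, mul_one, Real.norm_eq_abs, abs_of_nonneg hTpos]
      have h4 : ‖T • e‖ ≤ ‖x + T • e‖ + ‖x‖ := by
        have := norm_sub_le (x + T • e) x
        rwa [add_sub_cancel_left] at this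
      have h5 := le_abs_self R
      linarith
    have hf0 : f 0 = m := by simp [hf, hm]
    obtain ⟨t, -, ht⟩ : ∃ t ∈ Icc (0 : ℝ) T, f t = m + min ε 1 := by
      have := intermediate_value_Icc hTpos hfcont.continuousOn
      refine this ⟨?_, ?_⟩
      · rw [hf0]
        have : 0 < min ε 1 := lt_min hε one_pos
        linarith
      · have := min_le_right ε 1
        linarith
    refine ⟨t • e, Fᗮ.smul_mem _ heF, ?_, ?_⟩
    · have h1 : f t = ⟪g (I (x + t • e)), x + t • e⟫ + c (I (x + t • e)) := rfl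
      rw [← h1, ht]
      have := min_le_left ε 1
      linarith
    · have h1 : f t = ⟪g (I (x + t • e)), x + t • e⟫ + c (I (x + t • e)) := rfl
      rw [← h1, ht]
      have h2 : ⟪g k, t • e⟫ = 0 :=
        (Submodule.mem_orthogonal _ _).1 (Fᗮ.smul_mem _ heF) _ hk
      rw [inner_add_right, h2, add_zero, heq]
      have : 0 < min ε 1 := lt_min hε one_pos
      linarith

/-- **Main theorem on countable suprema.** -/
theorem exists_not_attained [CompleteSpace H] (hH : ¬ FiniteDimensional ℝ H) {ι : Type*}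
    [Countable ι] (g : ι → H) (c : ι → ℝ)
    (hb : ∀ M, Bornology.IsBounded {x | ∀ i, ⟪g i, x⟫ + c i ≤ M}) :
    ∃ x, ∀ i, ∃ j, ⟪g i, x⟫ + c i < ⟪g j, x⟫ + c j := by
  by_contra hcon
  push Not at hcon
  choose I hI using hcon
  have : Nonempty ι := ⟨I 0⟩
  obtain ⟨idx, hidx⟩ := exists_surjective_nat ι
  set φ : H → ℝ := fun x => ⟪g (I x), x⟫ + c (I x) with hφ
  -- the walk
  have step : ∀ (k : ℕ) (s : H × {F : Submodule ℝ H // FiniteDimensional ℝ F}),
      ∃ s' : H × {F : Submodule ℝ H // FiniteDimensional ℝ F},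
        s.2.1 ≤ s'.2.1 ∧ g (idx k) ∈ s'.2.1 ∧ s.1 ∈ s'.2.1 ∧ g (I s.1) ∈ s'.2.1 ∧
        s'.1 - s.1 ∈ s'.2.1ᗮ ∧ φ s'.1 ≤ φ s.1 + (1 / 2) ^ k ∧
        ⟪g (idx k), s'.1⟫ + c (idx k) < φ s'.1 := by
    rintro k ⟨x, F, hF⟩
    set G : Submodule ℝ H := F ⊔ Submodule.span ℝ {g (idx k), x, g (I x)} with hG
    have hGf : FiniteDimensional ℝ G := by
      have : FiniteDimensional ℝ (Submodule.span ℝ ({g (idx k), x, g (I x)} : Set H)) :=
        FiniteDimensional.span_of_finite ℝ (by simp)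
      exact Submodule.finiteDimensional_sup _ _
    have hsub : ∀ y ∈ ({g (idx k), x, g (I x)} : Set H), y ∈ G := fun y hy =>
      (le_sup_right : Submodule.span ℝ {g (idx k), x, g (I x)} ≤ G) (Submodule.subset_span hy)
    obtain ⟨v, hv, h1, h2⟩ := exit_step hH hb hI (idx k) x G (hsub _ (by simp))
      (ε := (1 / 2) ^ k) (by positivity)
    refine ⟨⟨x + v, G, hGf⟩, le_sup_left, hsub _ (by simp), hsub _ (by simp),
      hsub _ (by simp), ?_, h1, h2⟩
    show x + v - x ∈ Gᗮ
    rwa [add_sub_cancel_left]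
  choose nxt hn1 hn2 hn3 hn4 hn5 hn6 hn7 using step
  set s : ℕ → H × {F : Submodule ℝ H // FiniteDimensional ℝ F} :=
    fun n => Nat.rec (0, ⟨⊥, inferInstance⟩) (fun k s => nxt k s) n with hs
  have hsucc : ∀ n, s (n + 1) = nxt n (s n) := fun n => rfl
  set x : ℕ → H := fun n => (s n).1 with hx
  set F : ℕ → Submodule ℝ H := fun n => (s n).2.1 with hF
  have hFmono : Monotone F := monotone_nat_of_le_succ fun n => by
    simp only [hF, hsucc]
    exact hn1 n (s n)
  have hdiff : ∀ n, x (n + 1) - x n ∈ (F (n + 1))ᗮ := fun n => by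
    simp only [hF, hx, hsucc]
    exact hn5 n (s n)
  have hdiff2 : ∀ m n, m ≤ n → x n - x m ∈ (F (m + 1))ᗮ := by
    intro m n hmn
    induction n, hmn using Nat.le_induction with
    | base => rw [sub_self]; exact Submodule.zero_mem _
    | succ n hmn ih =>
      have h1 : x (n + 1) - x m = (x (n + 1) - x n) + (x n - x m) := by abel
      rw [h1]
      exact Submodule.add_mem _
        (Submodule.orthogonal_le (hFmono (by omega : m + 1 ≤ n + 1)) (hdiff n)) ih
  have hxF : ∀ n, x n ∈ F (n + 1) := fun n => by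
    simp only [hF, hx, hsucc]
    exact hn3 n (s n)
  have hgF : ∀ n, g (idx n) ∈ F (n + 1) := fun n => by
    simp only [hF, hsucc]
    exact hn2 n (s n)
  have hgIF : ∀ n, g (I (x n)) ∈ F (n + 1) := fun n => by
    simp only [hF, hx, hsucc]
    exact hn4 n (s n)
  have hφle : ∀ n, φ (x (n + 1)) ≤ φ (x n) + (1 / 2) ^ n := fun n => by
    simp only [hx, hsucc]
    exact hn6 n (s n)
  have hlt : ∀ n, ⟪g (idx n), x (n + 1)⟫ + c (idx n) < φ (x (n + 1)) := fun n => by
    simp only [hx, hsucc]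
    exact hn7 n (s n)
  -- boundedness
  have hφb : ∀ n, φ (x n) ≤ φ (x 0) + 2 - 2 * (1 / 2) ^ n := by
    intro n
    induction n with
    | zero => simp
    | succ n ih =>
      have := hφle n
      rw [pow_succ]
      linarith
  obtain ⟨R, hR⟩ := (hb (φ (x 0) + 2)).exists_norm_le
  have hxb : ∀ n, ‖x n‖ ≤ R := by
    intro n
    refine hR _ fun i => (hI (x n) i).trans ?_
    have h1 := hφb n
    have h2 : (0 : ℝ) < (1 / 2) ^ n := by positivity
    show φ (x n) ≤ _
    linarith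
  have hpyth : ∀ m n, m ≤ n → ‖x n‖ ^ 2 = ‖x m‖ ^ 2 + ‖x n - x m‖ ^ 2 := by
    intro m n hmn
    have h1 : ⟪x m, x n - x m⟫ = 0 :=
      (Submodule.mem_orthogonal _ _).1 (hdiff2 m n hmn) _ (hxF m)
    have h2 : x n = x m + (x n - x m) := by abel
    nth_rw 1 [h2]
    rw [norm_add_sq_real, h1]
    ring
  -- convergence
  have hmono : Monotone fun n => ‖x n‖ ^ 2 := by
    intro m n hmn
    show ‖x m‖ ^ 2 ≤ ‖x n‖ ^ 2
    rw [hpyth m n hmn]
    have := sq_nonneg ‖x n - x m‖
    linarith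
  have hbdd : BddAbove (range fun n => ‖x n‖ ^ 2) := by
    refine ⟨R ^ 2, ?_⟩
    rintro _ ⟨n, rfl⟩
    exact pow_le_pow_left₀ (norm_nonneg _) (hxb n) 2
  have hconv := tendsto_atTop_ciSup hmono hbdd
  have hcauchy : CauchySeq x := by
    rw [Metric.cauchySeq_iff']
    intro ε hε
    have hc := hconv.cauchySeq
    rw [Metric.cauchySeq_iff'] at hc
    obtain ⟨N, hN⟩ := hc (ε ^ 2) (by positivity)
    refine ⟨N, fun n hn => ?_⟩
    have h1 := hN n hn
    rw [Real.dist_eq, hpyth N n hn, add_sub_cancel_left, abs_of_nonneg (sq_nonneg _)] at h1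
    rw [dist_eq_norm]
    exact (sq_lt_sq₀ (norm_nonneg _) hε.le).1 h1
  obtain ⟨y, hy⟩ := cauchySeq_tendsto_of_complete hcauchy
  have hlim : ∀ m, ∀ u ∈ F (m + 1), ⟪u, y⟫ = ⟪u, x m⟫ := by
    intro m u hu
    have h1 : Tendsto (fun n => ⟪u, x n⟫) atTop (𝓝 ⟪u, y⟫) :=
      ((continuous_const.inner continuous_id).tendsto y).comp hy
    have h2 : Tendsto (fun n => ⟪u, x n⟫) atTop (𝓝 ⟪u, x m⟫) := by
      refine tendsto_const_nhds.congr' ?_
      filter_upwards [eventually_ge_atTop m] with n hn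
      have h3 : ⟪u, x n - x m⟫ = 0 :=
        (Submodule.mem_orthogonal _ _).1 (hdiff2 m n hn) _ hu
      rw [inner_sub_right] at h3
      linarith
    exact tendsto_nhds_unique h1 h2
  obtain ⟨k, hk⟩ := hidx (I y)
  have h1 := hlt k
  have h2 := hlim (k + 1) (g (idx k)) (hFmono (by omega : k + 1 ≤ k + 1 + 1) (hgF k))
  have h3 := hlim (k + 1) (g (I (x (k + 1)))) (hgIF (k + 1))
  have h4 := hI y (I (x (k + 1)))
  rw [← hk, h2, h3] at h4
  have h5 : φ (x (k + 1)) = ⟪g (I (x (k + 1))), x (k + 1)⟫ + c (I (x (k + 1))) := rfl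
  rw [h5] at h1
  linarith

end Pool.Agent.Lib.MP_3191e9_an_helper66
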