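import Mathlib

/-!
Definitions (helper66) for the tiling problem `MP_3191e9_an`.
-/

open Filter Topology Set
open scoped RealInnerProductSpace

namespace Pool.Agent.Lib.MP_3191e9_an_helper66

variable {H : Type*} [NormedAddCommGroup H] [InnerProductSpace ℝ H]

/-- The points of `K` at which a ball of radius `δ` of some closed subspace of finite
codimension fits into `K`. -/
def deepPts (K : Set H) (δ : ℝ) : Set H :=
  {x | x ∈ K ∧ ∃ F : Submodule ℝ H, FiniteDimensional ℝ F ∧ ∀ v ∈ Fᗮ, ‖v‖ ≤ δ → x + v ∈ K}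

/-- The points of `K` which are not limits of `δ`-deep points, for any `δ > 0`. -/
def shallow (K : Set H) : Set H :=
  {x | x ∈ K ∧ ∀ δ > 0, x ∉ closure (deepPts K δ)}

/-- Every point of `K` that is not `δ`-deep has shallow points nearby, in every finite
codimensional direction. -/
def ManyShallow (K : Set H) : Prop :=
  ∀ ε > 0, ∃ δ > 0, ∀ x ∈ K, x ∉ deepPts K δ → ∀ F : Submodule ℝ H, FiniteDimensional ℝ F →
    ∃ v ∈ Fᗮ, ‖v‖ ≤ ε ∧ x + v ∈ shallow K

/-- The Kadec-Klee property of a set `K`: a sequence in `K` which converges weakly to a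
frontier point of `K` converges in norm. -/
def KadecKlee (K : Set H) : Prop :=
  ∀ (x : ℕ → H) (x0 : H), (∀ n, x n ∈ K) → x0 ∈ frontier K →
    (∀ v : H, Tendsto (fun n => ⟪x n, v⟫) atTop (𝓝 ⟪x0, v⟫)) → Tendsto x atTop (𝓝 x0)

/-- The points of continuity of `K`: the points of `K` which have weak neighbourhoods in `K`
of arbitrarily small norm diameter. -/
def pcPts (K : Set H) : Set H :=
  {x | x ∈ K ∧ ∀ ε > 0, ∃ G : Finset H, ∃ η > 0, ∀ z ∈ K, (∀ g ∈ G, |⟪g, z - x⟫| < η) →
    ‖z - x‖ < ε}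

/-- Every point of `K` that is not `δ`-deep (`δ` depending on `ε`) is `ε`-close to a point of
continuity of `K`. -/
def NearPC (K : Set H) : Prop :=
  ∀ ε > 0, ∃ δ > 0, ∀ x ∈ K, x ∉ deepPts K δ → ∃ y ∈ pcPts K, ‖y - x‖ < ε

end Pool.Agent.Lib.MP_3191e9_an_helper66
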