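import Pool.Agent.Lib.MP_3191e9_an_helper66.Tile

/-!
Helper file (helper66) for `MP_3191e9_an`: bodies with the Kadec-Klee property have many
shallow points.
-/

open Filter Topology Set
open scoped RealInnerProductSpace

namespace Pool.Agent.Lib.MP_3191e9_an_helper66

variable {H : Type*} [NormedAddCommGroup H] [InnerProductSpace ℝ H]

/-- Frontier points of a closed set with the Kadec-Klee property are shallow. -/
theorem frontier_subset_shallow (hH : ¬ FiniteDimensional ℝ H) {K : Set H}
    (hcl : IsClosed K) (hKK : KadecKlee K) : frontier K ⊆ shallow K := by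
  classical
  intro x0 hx0
  refine ⟨hcl.frontier_subset hx0, fun δ hδ hmem => ?_⟩
  obtain ⟨f, -, hf2⟩ := exists_seq_of_forall_finset_exists
    (α := {t : H × H × ℝ // t.1 + t.2.1 ∈ K ∧ ‖t.2.1‖ = δ ∧ ‖t.1 - x0‖ < t.2.2 ∧
      0 < t.2.2 ∧ t.2.2 ≤ 1})
    (fun _ => True) (fun s t => ⟪s.1.2.1, t.1.2.1⟫ = 0 ∧ t.1.2.2 ≤ s.1.2.2 / 2) (by
      intro s _
      set B : Finset H := s.image (fun x => x.1.2.1) with hB
      set η : ℝ := (insert (1 : ℝ) (s.image (fun x => x.1.2.2 / 2))).min' (by simp) with hη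
      have hηpos : 0 < η := by
        rw [hη, Finset.lt_min'_iff]
        intro z hz
        rw [Finset.mem_insert] at hz
        rcases hz with rfl | hz
        · norm_num
        · obtain ⟨x, -, rfl⟩ := Finset.mem_image.1 hz
          have := x.2.2.2.2.1
          linarith
      have hη1 : η ≤ 1 := Finset.min'_le _ _ (by simp)
      have hηx : ∀ x ∈ s, η ≤ x.1.2.2 / 2 := fun x hx =>
        Finset.min'_le _ _ (Finset.mem_insert_of_mem (Finset.mem_image_of_mem _ hx))
      obtain ⟨z, ⟨hzK, F, hF, hzF⟩, hz⟩ := Metric.mem_closure_iff.1 hmem η hηpos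
      have hG : FiniteDimensional ℝ (Submodule.span ℝ (B : Set H)) :=
        FiniteDimensional.span_finset ℝ _
      have hFG : FiniteDimensional ℝ (F ⊔ Submodule.span ℝ (B : Set H) : Submodule ℝ H) :=
        Submodule.finiteDimensional_sup _ _
      obtain ⟨v, hv, hvn⟩ := exists_orth hH (F ⊔ Submodule.span ℝ (B : Set H)) hδ.le
      have h1 : v ∈ Fᗮ := Submodule.orthogonal_le le_sup_left hv
      have h2 : v ∈ (Submodule.span ℝ (B : Set H))ᗮ := Submodule.orthogonal_le le_sup_right hv
      refine ⟨⟨(z, v, η), hzF v h1 hvn.le, hvn, ?_, hηpos, hη1⟩, trivial,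
        fun x hx => ⟨?_, hηx x hx⟩⟩
      · rw [dist_comm, dist_eq_norm] at hz
        exact hz
      · exact (Submodule.mem_orthogonal _ _).1 h2 _
          (Submodule.subset_span (Finset.mem_image_of_mem (fun x => x.1.2.1) hx)))
  set z : ℕ → H := fun n => (f n).1.1 with hz
  set v : ℕ → H := fun n => (f n).1.2.1 with hv
  have hzv : ∀ n, z n + v n ∈ K := fun n => (f n).2.1
  have hvn : ∀ n, ‖v n‖ = δ := fun n => (f n).2.2.1
  have hort : ∀ m n, m ≠ n → ⟪v m, v n⟫ = 0 := by
    intro m n hmn
    rcases lt_or_gt_of_ne hmn with h | h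
    · exact (hf2 m n h).1
    · rw [real_inner_comm]; exact (hf2 n m h).1
  have hzlim : Tendsto z atTop (𝓝 x0) := by
    have hle : ∀ n, (f n).1.2.2 ≤ (1 / 2 : ℝ) ^ n := by
      intro n
      induction n with
      | zero => simpa using (f 0).2.2.2.2.2
      | succ n ih =>
        have := (hf2 n (n + 1) (Nat.lt_succ_self n)).2
        rw [pow_succ]
        linarith
    rw [tendsto_iff_norm_sub_tendsto_zero]
    refine squeeze_zero (fun n => norm_nonneg _)
      (fun n => ((f n).2.2.2.1.le.trans (hle n)))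
      (tendsto_pow_atTop_nhds_zero_of_lt_one (by norm_num) (by norm_num))
  -- weak convergence
  have hon : Orthonormal ℝ (fun n => δ⁻¹ • v n) := by
    constructor
    · intro n
      rw [norm_smul, hvn, Real.norm_eq_abs, abs_of_pos (inv_pos.2 hδ), inv_mul_cancel₀ hδ.ne']
    · intro m n hmn
      show ⟪δ⁻¹ • v m, δ⁻¹ • v n⟫ = 0
      rw [real_inner_smul_left, real_inner_smul_right, hort m n hmn, mul_zero, mul_zero]
  have hw : ∀ u : H, Tendsto (fun n => ⟪v n, u⟫) atTop (𝓝 0) := by
    intro u
    have h1 := hon.inner_products_summable (x := u)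
    have h2 := h1.tendsto_atTop_zero
    have h3 : Tendsto (fun n => ‖⟪δ⁻¹ • v n, u⟫‖) atTop (𝓝 0) := by
      have := (Real.continuous_sqrt.tendsto 0).comp h2
      rw [Real.sqrt_zero] at this
      refine this.congr fun n => ?_
      simp only [Function.comp]
      exact Real.sqrt_sq (norm_nonneg _)
    have h4 := (tendsto_zero_iff_norm_tendsto_zero.2 h3).const_mul δ
    rw [mul_zero] at h4
    refine h4.congr fun n => ?_
    rw [real_inner_smul_left, ← mul_assoc, mul_inv_cancel₀ hδ.ne', one_mul]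
  have hconv := hKK (fun n => z n + v n) x0 hzv hx0 (fun u => by
    have h1 : Tendsto (fun n => ⟪z n, u⟫) atTop (𝓝 ⟪x0, u⟫) :=
      ((continuous_id.inner continuous_const).tendsto x0).comp hzlim
    have h2 := h1.add (hw u)
    rw [add_zero] at h2
    refine h2.congr fun n => ?_
    rw [inner_add_left])
  have h5 : Tendsto (fun n => (z n + v n) - z n) atTop (𝓝 (x0 - x0)) := hconv.sub hzlim
  rw [sub_self] at h5
  have h6 := h5.norm
  simp only [add_sub_cancel_left, norm_zero] at h6
  have h7 : Tendsto (fun n => ‖v n‖) atTop (𝓝 δ) := by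
    simp_rw [hvn]
    exact tendsto_const_nhds
  have := tendsto_nhds_unique h6 h7
  exact hδ.ne this

/-- Sets with the Kadec-Klee property have many shallow points. -/
theorem manyShallow_of_kadecKlee (hH : ¬ FiniteDimensional ℝ H) {K : Set H}
    (hcl : IsClosed K) (hKK : KadecKlee K) : ManyShallow K := by
  intro ε hε
  refine ⟨ε, hε, fun x hx hxd F hF => ?_⟩
  have hnot : ¬ ∀ v ∈ Fᗮ, ‖v‖ ≤ ε → x + v ∈ K := fun h => hxd ⟨hx, F, hF, h⟩
  push Not at hnot
  obtain ⟨v, hvF, hvn, hvK⟩ := hnot
  -- the segment crosses the frontier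
  have hconn : IsPreconnected (segment ℝ x (x + v)) := (convex_segment _ _).isPreconnected
  obtain ⟨w, hw1, hw2⟩ : (segment ℝ x (x + v) ∩ frontier K).Nonempty := by
    by_contra hcon
    rw [not_nonempty_iff_eq_empty] at hcon
    have h1 : segment ℝ x (x + v) ⊆ interior K ∪ Kᶜ := by
      intro w hw
      by_cases hwK : w ∈ K
      · left
        by_contra hwi
        have : w ∈ segment ℝ x (x + v) ∩ frontier K :=
          ⟨hw, by rw [frontier, hcl.closure_eq]; exact ⟨hwK, hwi⟩⟩
        rw [hcon] at this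
        exact this
      · right; exact hwK
    have h2 := hconn (interior K) Kᶜ isOpen_interior hcl.isOpen_compl h1
      (by
        refine ⟨x, left_mem_segment _ _ _, ?_⟩
        rcases h1 (left_mem_segment _ _ _) with h | h
        · exact h
        · exact (h hx).elim)
      ⟨x + v, right_mem_segment _ _ _, hvK⟩
    obtain ⟨w, -, hw1, hw2⟩ := h2
    exact hw2 (interior_subset hw1)
  rw [segment_eq_image'] at hw1
  obtain ⟨θ, ⟨h0, h1⟩, rfl⟩ := hw1
  refine ⟨θ • v, Fᗮ.smul_mem _ hvF, ?_, ?_⟩
  · rw [norm_smul, Real.norm_eq_abs, abs_of_nonneg h0]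
    calc θ * ‖v‖ ≤ 1 * ‖v‖ := mul_le_mul_of_nonneg_right h1 (norm_nonneg _)
      _ ≤ ε := by rw [one_mul]; exact hvn
  · have := frontier_subset_shallow hH hcl hKK hw2
    simpa using this

end Pool.Agent.Lib.MP_3191e9_an_helper66
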