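import Mathlib

/-!
Definition (helper66) for `MP_3191e9_an`: cells of Voronoi type of a subgroup.
-/

open scoped RealInnerProductSpace

namespace Pool.Agent.Lib.MP_3191e9_an_helper66

/-- For an additive subgroup `A` of `H` and an additive map `β : A → H`, which represents the
pairing `B(a, x) = ⟪β a, x⟫`, the cell `{x | B(a, x) ≤ B(a, a) / 2 for all a ∈ A}`. -/
def cell {H : Type*} [NormedAddCommGroup H] [InnerProductSpace ℝ H] (A : AddSubgroup H)
    (β : A →+ H) : Set H :=
  {x | ∀ a : A, ⟪β a, x⟫ ≤ ⟪β a, (a : H)⟫ / 2}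

end Pool.Agent.Lib.MP_3191e9_an_helper66
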