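import Pool.Agent.Lib.MP_3191e9_an_helper66.Attain
import Pool.Agent.Lib.MP_3191e9_an_helper66.LatDefs

/-!
Helper file (helper66) for `MP_3191e9_an`: lattice tilings of Voronoi type.
-/

open Filter Topology Set
open scoped RealInnerProductSpace

namespace Pool.Agent.Lib.MP_3191e9_an_helper66

variable {H : Type*} [NormedAddCommGroup H] [InnerProductSpace ℝ H]

section

variable {A : AddSubgroup H} {β : A →+ H}

theorem mem_cell {x : H} : x ∈ cell A β ↔ ∀ a : A, ⟪β a, x⟫ ≤ ⟪β a, (a : H)⟫ / 2 := Iff.rfl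

theorem cell_neg {x : H} (hx : x ∈ cell A β) : -x ∈ cell A β := by
  intro a
  have h := hx (-a)
  simp only [map_neg, inner_neg_left, NegMemClass.coe_neg, inner_neg_right, neg_neg] at h
  rw [inner_neg_right]
  exact h

theorem convex_cell : Convex ℝ (cell A β) := by
  intro x hx y hy s t hs ht hst a
  rw [inner_add_right, real_inner_smul_right, real_inner_smul_right]
  have h1 := mul_le_mul_of_nonneg_left (hx a) hs
  have h2 := mul_le_mul_of_nonneg_left (hy a) ht
  have h3 : ⟪β a, (a : H)⟫ / 2 = s * (⟪β a, (a : H)⟫ / 2) + t * (⟪β a, (a : H)⟫ / 2) := by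
    rw [← add_mul, hst, one_mul]
  rw [h3]
  exact add_le_add h1 h2

/-- The origin is an interior point of the cell, quantitatively. -/
theorem exists_ball_cell (hint : (interior (cell A β)).Nonempty) :
    ∃ r > 0, ∀ x : H, ‖x‖ ≤ r → x ∈ cell A β := by
  obtain ⟨p, hp⟩ := hint
  obtain ⟨ρ, hρ, hball⟩ := Metric.mem_nhds_iff.1 (mem_interior_iff_mem_nhds.1 hp)
  refine ⟨ρ / 2, by positivity, fun x hx => ?_⟩
  have h1 : p + x ∈ cell A β := hball (by
    rw [Metric.mem_ball, dist_eq_norm, add_sub_cancel_left]; linarith)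
  have h2 : -(p - x) ∈ cell A β := cell_neg (hball (by
    rw [Metric.mem_ball, dist_eq_norm, sub_sub_cancel_left, norm_neg]; linarith))
  have h3 := convex_cell h1 h2 (by norm_num : (0 : ℝ) ≤ 1 / 2) (by norm_num : (0 : ℝ) ≤ 1 / 2)
    (by norm_num)
  convert h3 using 1
  module

theorem norm_beta_le {r : ℝ} (hr : 0 < r) (hball : ∀ x : H, ‖x‖ ≤ r → x ∈ cell A β) (a : A) :
    ‖β a‖ ≤ ⟪β a, (a : H)⟫ / (2 * r) := by
  by_cases h0 : β a = 0
  · simp [h0]
  have hn : 0 < ‖β a‖ := norm_pos_iff.2 h0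
  have h1 := hball ((r / ‖β a‖) • β a) (by
    rw [norm_smul, Real.norm_eq_abs, abs_of_pos (by positivity), div_mul_cancel₀ _ hn.ne']) a
  rw [real_inner_smul_right, real_inner_self_eq_norm_sq] at h1
  have h2 : r / ‖β a‖ * ‖β a‖ ^ 2 = r * ‖β a‖ := by
    field_simp
  rw [h2] at h1
  rw [le_div_iff₀ (by positivity)]
  linarith

theorem inner_self_nonneg' {r : ℝ} (hr : 0 < r) (hball : ∀ x : H, ‖x‖ ≤ r → x ∈ cell A β)
    (a : A) : 0 ≤ ⟪β a, (a : H)⟫ := by
  have h := norm_beta_le hr hball a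
  have h2 := (norm_nonneg _).trans h
  by_contra hcon
  have h3 : ⟪β a, (a : H)⟫ / (2 * r) < 0 := div_neg_of_neg_of_pos (not_le.1 hcon) (by positivity)
  linarith

/-- Vectors orthogonal to all `β a` vanish. -/
theorem eq_zero_of_orth (hball0 : (0 : H) ∈ cell A β) {R : ℝ} (hR : ∀ x ∈ cell A β, ‖x‖ ≤ R)
    {u : H} (hu : ∀ a : A, ⟪β a, u⟫ = 0) : u = 0 := by
  by_contra h0
  have hn : 0 < ‖u‖ := norm_pos_iff.2 h0
  have hmem : ((|R| + 1) / ‖u‖) • u ∈ cell A β := by
    intro a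
    rw [real_inner_smul_right, hu a, mul_zero]
    have := hball0 a
    rwa [inner_zero_right] at this
  have h1 := hR _ hmem
  rw [norm_smul, Real.norm_eq_abs, abs_of_pos (by positivity), div_mul_cancel₀ _ hn.ne'] at h1
  have := le_abs_self R
  linarith

theorem two_r_le {r R : ℝ} (hr : 0 < r) (hball : ∀ x : H, ‖x‖ ≤ r → x ∈ cell A β)
    (hR : ∀ x ∈ cell A β, ‖x‖ ≤ R)
    (hsymm : ∀ a b : A, ⟪β a, (b : H)⟫ = ⟪β b, (a : H)⟫) (a : A) (ha : (a : H) ≠ 0) :
    2 * r ≤ ‖(a : H)‖ := by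
  have hβ : β a ≠ 0 := by
    intro h
    apply ha
    refine eq_zero_of_orth (hball 0 (by simpa using hr.le)) hR fun c => ?_
    rw [hsymm c a, h, inner_zero_left]
  have hn : 0 < ‖β a‖ := norm_pos_iff.2 hβ
  have h1 := norm_beta_le hr hball a
  have h2 := real_inner_le_norm (β a) (a : H)
  rw [le_div_iff₀ (by positivity)] at h1
  have h3 : ‖β a‖ * (2 * r) ≤ ‖β a‖ * ‖(a : H)‖ := h1.trans h2
  exact le_of_mul_le_mul_left h3 hn

/-- In the tile of `a` the affine function of `a` is the largest. -/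
theorem attained {x : H} {a : A} (hx : x - a ∈ cell A β)
    (hsymm : ∀ a b : A, ⟪β a, (b : H)⟫ = ⟪β b, (a : H)⟫) (b : A) :
    ⟪β b, x⟫ + -(⟪β b, (b : H)⟫ / 2) ≤ ⟪β a, x⟫ + -(⟪β a, (a : H)⟫ / 2) := by
  have h := hx (b - a)
  have e1 : ⟪β (b - a), x - a⟫ = ⟪β b, x⟫ - ⟪β a, x⟫ - ⟪β b, (a : H)⟫ + ⟪β a, (a : H)⟫ := by
    rw [map_sub, inner_sub_left, inner_sub_right, inner_sub_right]; ring
  have e2 : ⟪β (b - a), ((b - a : A) : H)⟫
      = ⟪β b, (b : H)⟫ - 2 * ⟪β b, (a : H)⟫ + ⟪β a, (a : H)⟫ := by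
    rw [map_sub, AddSubgroup.coe_sub, inner_sub_left, inner_sub_right, inner_sub_right,
      hsymm a b]
    ring
  rw [e1, e2] at h
  linarith

/-- On the segment from `0` to a nonzero lattice vector there is a point far from the lattice. -/
theorem exists_far {r : ℝ} (hr : 0 < r) (h2r : ∀ a : A, (a : H) ≠ 0 → 2 * r ≤ ‖(a : H)‖)
    (b : A) (hb : (b : H) ≠ 0) :
    ∃ t ∈ Icc (0 : ℝ) 1, ∀ c : A, r ≤ ‖t • (b : H) - c‖ := by
  by_contra hcon
  push Not at hcon
  have hcont : ∀ c : A, IsOpen {t : ℝ | ‖t • (b : H) - c‖ < r} := fun c =>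
    isOpen_lt (by fun_prop) continuous_const
  have hU : IsOpen {t : ℝ | ‖t • (b : H) - (0 : A)‖ < r} := hcont 0
  have hV : IsOpen (⋃ c ∈ {c : A | c ≠ 0}, {t : ℝ | ‖t • (b : H) - c‖ < r}) :=
    isOpen_biUnion fun c _ => hcont c
  obtain ⟨t, -, ht1, ht2⟩ := isPreconnected_Icc (a := (0 : ℝ)) (b := 1) _ _ hU hV
    (by
      intro t ht
      obtain ⟨c, hc⟩ := hcon t ht
      by_cases hc0 : c = 0
      · left; subst hc0; exact hc
      · right; exact mem_iUnion₂.2 ⟨c, hc0, hc⟩)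
    ⟨0, by simp, by simpa using hr⟩
    ⟨1, by simp, mem_iUnion₂.2 ⟨b, fun h => hb (by rw [h]; rfl), by simpa using hr⟩⟩
  obtain ⟨c, hc0, hc⟩ := mem_iUnion₂.1 ht2
  have h1 : ‖t • (b : H)‖ < r := by simpa using ht1
  have h2 : ‖t • (b : H) - c‖ < r := hc
  have h3 : (c : H) ≠ 0 := fun h => hc0 (by ext; exact h)
  have h4 := h2r c h3
  have h5 : ‖(c : H)‖ ≤ ‖t • (b : H)‖ + ‖t • (b : H) - c‖ := by
    have := norm_sub_le (t • (b : H)) (t • (b : H) - c)
    rwa [sub_sub_cancel] at this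
  linarith

end

/-- If the form takes arbitrarily small values on nonzero lattice vectors of bounded length,
the cell is unbounded. -/
theorem no_small_values [CompleteSpace H] {A : AddSubgroup H} {β : A →+ H}
    (hsymm : ∀ a b : A, ⟪β a, (b : H)⟫ = ⟪β b, (a : H)⟫) {r R : ℝ} (hr : 0 < r)
    (hball : ∀ x : H, ‖x‖ ≤ r → x ∈ cell A β) (hR : ∀ x ∈ cell A β, ‖x‖ ≤ R)
    (hcov : ∀ x : H, ∃ a : A, x - a ∈ cell A β) {C : ℝ}
    (hsmall : ∀ η > 0, ∃ b : A, (b : H) ≠ 0 ∧ ‖(b : H)‖ ≤ C ∧ ⟪β b, (b : H)⟫ ≤ η) : False := by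
  have h0 : (0 : H) ∈ cell A β := hball 0 (by simpa using hr.le)
  have hR0 : 0 ≤ R := (norm_nonneg _).trans (hR 0 h0)
  have h2r := two_r_le hr hball hR hsymm
  have hnn := inner_self_nonneg' hr hball
  have hC0 : 0 ≤ C := by
    obtain ⟨b, -, hb, -⟩ := hsmall 1 one_pos
    exact (norm_nonneg _).trans hb
  -- density of the span of the values of β
  have hdense : (Submodule.span ℝ (range β)).topologicalClosure = ⊤ := by
    rw [Submodule.topologicalClosure_eq_top_iff, Submodule.eq_bot_iff]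
    intro u hu
    refine eq_zero_of_orth h0 hR fun a => ?_
    exact (Submodule.mem_orthogonal _ _).1 hu _ (Submodule.subset_span ⟨a, rfl⟩)
  -- weak smallness
  have hweak : ∀ κ : H, ∀ ε > 0, ∃ θ > 0, ∀ u : H, ‖u‖ ≤ 2 * R →
      (∀ a : A, |⟪β a, u⟫| ≤ θ * ‖(a : H)‖) → |⟪κ, u⟫| ≤ ε := by
    intro κ ε hε
    -- elements of the span
    have hspan : ∀ y ∈ Submodule.span ℝ (range β), ∃ L : ℝ, 0 ≤ L ∧ ∀ θ > 0, ∀ u : H,
        (∀ a : A, |⟪β a, u⟫| ≤ θ * ‖(a : H)‖) → |⟪y, u⟫| ≤ θ * L := by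
      intro y hy
      induction hy using Submodule.span_induction with
      | mem y hy =>
        obtain ⟨a, rfl⟩ := hy
        exact ⟨‖(a : H)‖, norm_nonneg _, fun θ _ u hu => hu a⟩
      | zero => exact ⟨0, le_rfl, fun θ _ u _ => by simp⟩
      | add y z _ _ ihy ihz =>
        obtain ⟨L1, hL1, h1⟩ := ihy
        obtain ⟨L2, hL2, h2⟩ := ihz
        refine ⟨L1 + L2, add_nonneg hL1 hL2, fun θ hθ u hu => ?_⟩
        rw [inner_add_left, mul_add]
        exact (abs_add_le _ _).trans (add_le_add (h1 θ hθ u hu) (h2 θ hθ u hu))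
      | smul s y _ ihy =>
        obtain ⟨L1, hL1, h1⟩ := ihy
        refine ⟨|s| * L1, by positivity, fun θ hθ u hu => ?_⟩
        rw [real_inner_smul_left, abs_mul]
        have := mul_le_mul_of_nonneg_left (h1 θ hθ u hu) (abs_nonneg s)
        linarith
    have hκ : κ ∈ closure (Submodule.span ℝ (range β) : Set H) := by
      have : κ ∈ (Submodule.span ℝ (range β)).topologicalClosure := hdense ▸ Submodule.mem_top
      exact this
    obtain ⟨y, hy, hyκ⟩ := Metric.mem_closure_iff.1 hκ (ε / (2 * (2 * R + 1))) (by positivity)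
    obtain ⟨L, hL, hLy⟩ := hspan y hy
    refine ⟨ε / (2 * (L + 1)), by positivity, fun u hu hua => ?_⟩
    have h1 := hLy _ (by positivity) u hua
    have h2 : |⟪κ - y, u⟫| ≤ ε / 2 := by
      have h3 := abs_real_inner_le_norm (κ - y) u
      rw [dist_eq_norm] at hyκ
      calc |⟪κ - y, u⟫| ≤ ‖κ - y‖ * ‖u‖ := h3
        _ ≤ ε / (2 * (2 * R + 1)) * (2 * R + 1) :=
            mul_le_mul hyκ.le (by linarith) (norm_nonneg _) (by positivity)
        _ = ε / 2 := by field_simp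
    have h4 : ε / (2 * (L + 1)) * L ≤ ε / 2 := by
      rw [div_mul_eq_mul_div, div_le_div_iff₀ (by positivity) (by positivity)]
      have : ε * L * 2 ≤ ε * (2 * (L + 1)) := by nlinarith
      linarith
    have h5 : ⟪κ, u⟫ = ⟪κ - y, u⟫ + ⟪y, u⟫ := by rw [inner_sub_left]; ring
    rw [h5]
    exact (abs_add_le _ _).trans (by linarith)
  -- one step
  have step : ∀ κ ∈ cell A β, ∃ κ' ∈ cell A β, ‖κ‖ ^ 2 + r ^ 2 / 2 ≤ ‖κ'‖ ^ 2 := by
    intro κ hκ
    -- shrink
    set lam : ℝ := min (1 / 2) (r ^ 2 / (8 * (R ^ 2 + 1))) with hlam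
    have hlampos : 0 < lam := lt_min (by norm_num) (by positivity)
    have hlam2 : lam ≤ 1 / 2 := min_le_left _ _
    have hlamR : 2 * lam * R ^ 2 ≤ r ^ 2 / 4 := by
      have h1 : lam ≤ r ^ 2 / (8 * (R ^ 2 + 1)) := min_le_right _ _
      rw [le_div_iff₀ (by positivity)] at h1
      nlinarith
    set κ1 : H := (1 - lam) • κ with hκ1
    have hκ1c : ∀ c : A, ⟪β c, κ1⟫ ≤ (1 - lam) * (⟪β c, (c : H)⟫ / 2) := by
      intro c
      rw [hκ1, real_inner_smul_right]
      exact mul_le_mul_of_nonneg_left (hκ c) (by linarith)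
    have hκ1cell : κ1 ∈ cell A β := by
      intro c
      refine (hκ1c c).trans ?_
      have h1 : 0 ≤ ⟪β c, (c : H)⟫ / 2 := by linarith [hnn c]
      nlinarith
    have hκ1n : ‖κ‖ ^ 2 - r ^ 2 / 4 ≤ ‖κ1‖ ^ 2 := by
      rw [hκ1, norm_smul, mul_pow, Real.norm_eq_abs, sq_abs]
      have h1 : ‖κ‖ ^ 2 ≤ R ^ 2 := pow_le_pow_left₀ (norm_nonneg _) (hR κ hκ) 2
      have h2 := sq_nonneg ‖κ‖
      nlinarith [sq_nonneg lam]
    obtain ⟨θ, hθ, hθw⟩ := hweak κ1 (r ^ 2 / 8) (by positivity)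
    -- the small vector
    set D : ℝ := C + 2 * R + 1 with hD
    have hDpos : 0 < D := by positivity
    set η : ℝ := min (θ * r) (θ * (r ^ 2 * lam) / D) with hη
    have hηpos : 0 < η := lt_min (by positivity) (by positivity)
    obtain ⟨b, hb0, hbC, hbη⟩ := hsmall η hηpos
    obtain ⟨t, ht, htfar⟩ := exists_far hr h2r b hb0
    obtain ⟨c, hc⟩ := hcov (κ1 + t • (b : H))
    have hκ'R := hR _ hc
    have hβb : ‖β b‖ ≤ η / (2 * r) := (norm_beta_le hr hball b).trans (by gcongr)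
    have hxc : ‖t • (b : H) - c‖ ≤ 2 * R := by
      have h1 : t • (b : H) - c = (κ1 + t • (b : H) - c) - κ1 := by abel
      rw [h1]
      have h2 := norm_sub_le (κ1 + t • (b : H) - c) κ1
      have h3 := hR _ hκ1cell
      linarith
    have htb : ‖t • (b : H)‖ ≤ C := by
      rw [norm_smul, Real.norm_eq_abs, abs_of_nonneg ht.1]
      calc t * ‖(b : H)‖ ≤ 1 * C := mul_le_mul ht.2 hbC (norm_nonneg _) zero_le_one
        _ = C := one_mul _
    have hcn : ‖(c : H)‖ ≤ D := by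
      have h1 := norm_sub_le (t • (b : H)) (t • (b : H) - c)
      rw [sub_sub_cancel] at h1
      linarith
    -- `c` has small form
    have hcc : ⟪β c, (c : H)⟫ ≤ θ * r := by
      have h1 := attained hc hsymm 0
      simp only [map_zero, inner_zero_left, zero_div, neg_zero, add_zero] at h1
      have e0 : ⟪β c, κ1 + t • (b : H)⟫ = ⟪β c, κ1⟫ + t * ⟪β b, (c : H)⟫ := by
        rw [inner_add_right, real_inner_smul_right (β c) (b : H) t, hsymm c b]
      rw [e0] at h1
      have h2 := hκ1c c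
      have h3 : t * ⟪β b, (c : H)⟫ ≤ η / (2 * r) * D := by
        have h4 : ⟪β b, (c : H)⟫ ≤ η / (2 * r) * D :=
          (real_inner_le_norm _ _).trans (mul_le_mul hβb hcn (norm_nonneg _) (by positivity))
        have h5 : 0 ≤ η / (2 * r) * D := by positivity
        calc t * ⟪β b, (c : H)⟫ ≤ t * (η / (2 * r) * D) := mul_le_mul_of_nonneg_left h4 ht.1
          _ ≤ 1 * (η / (2 * r) * D) := mul_le_mul_of_nonneg_right ht.2 h5
          _ = _ := one_mul _
      have h6 : lam * (⟪β c, (c : H)⟫ / 2) ≤ η / (2 * r) * D := by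
        have e : (1 - lam) * (⟪β c, (c : H)⟫ / 2)
          = ⟪β c, (c : H)⟫ / 2 - lam * (⟪β c, (c : H)⟫ / 2) := by ring
        rw [e] at h2
        linarith
      have h7 : η * D ≤ θ * (r ^ 2 * lam) := by
        have := min_le_right (θ * r) (θ * (r ^ 2 * lam) / D)
        rw [← hη, le_div_iff₀ hDpos] at this
        exact this
      have h8 : η / (2 * r) * D ≤ lam * (θ * r) / 2 := by
        rw [div_mul_eq_mul_div, div_le_iff₀ (by positivity)]
        calc η * D ≤ θ * (r ^ 2 * lam) := h7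
          _ = lam * (θ * r) / 2 * (2 * r) := by ring
      have h9 : lam * ⟪β c, (c : H)⟫ ≤ lam * (θ * r) := by linarith
      exact le_of_mul_le_mul_left h9 hlampos
    have hβc : ‖β c‖ ≤ θ / 2 := by
      refine (norm_beta_le hr hball c).trans ?_
      rw [div_le_iff₀ (by positivity)]
      linarith
    have hβb' : ‖β b‖ ≤ θ / 2 := by
      refine hβb.trans ?_
      rw [div_le_iff₀ (by positivity)]
      have := min_le_left (θ * r) (θ * (r ^ 2 * lam) / D)
      rw [← hη] at this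
      linarith
    have hsmallu : ∀ a : A, |⟪β a, t • (b : H) - c⟫| ≤ θ * ‖(a : H)‖ := by
      intro a
      rw [inner_sub_right, real_inner_smul_right, hsymm a b, hsymm a c]
      have h1 : |t * ⟪β b, (a : H)⟫| ≤ θ / 2 * ‖(a : H)‖ := by
        rw [abs_mul, abs_of_nonneg ht.1]
        have h2 := abs_real_inner_le_norm (β b) (a : H)
        calc t * |⟪β b, (a : H)⟫| ≤ 1 * (‖β b‖ * ‖(a : H)‖) :=
              mul_le_mul ht.2 h2 (abs_nonneg _) zero_le_one
          _ ≤ θ / 2 * ‖(a : H)‖ := by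
              rw [one_mul]; exact mul_le_mul_of_nonneg_right hβb' (norm_nonneg _)
      have h2 : |⟪β c, (a : H)⟫| ≤ θ / 2 * ‖(a : H)‖ :=
        (abs_real_inner_le_norm _ _).trans (mul_le_mul_of_nonneg_right hβc (norm_nonneg _))
      have h3 := abs_sub (t * ⟪β b, (a : H)⟫) ⟪β c, (a : H)⟫
      linarith
    have hin := hθw _ hxc hsmallu
    refine ⟨κ1 + t • (b : H) - c, hc, ?_⟩
    have e : κ1 + t • (b : H) - c = κ1 + (t • (b : H) - c) := by abel
    rw [e, norm_add_sq_real]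
    have h1 : r ^ 2 ≤ ‖t • (b : H) - c‖ ^ 2 := pow_le_pow_left₀ hr.le (htfar c) 2
    have h2 := (abs_le.1 hin).1
    linarith
  -- iterate
  have key : ∀ n : ℕ, ∃ κ ∈ cell A β, (n : ℝ) * (r ^ 2 / 2) ≤ ‖κ‖ ^ 2 := by
    intro n
    induction n with
    | zero => exact ⟨0, h0, by simp⟩
    | succ n ih =>
      obtain ⟨κ, hκ, hn⟩ := ih
      obtain ⟨κ', hκ', hn'⟩ := step κ hκ
      refine ⟨κ', hκ', ?_⟩
      push_cast
      linarith
  obtain ⟨n, hn⟩ := exists_nat_gt (R ^ 2 / (r ^ 2 / 2))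
  obtain ⟨κ, hκ, hκn⟩ := key n
  have h1 : ‖κ‖ ^ 2 ≤ R ^ 2 := pow_le_pow_left₀ (norm_nonneg _) (hR κ hκ) 2
  rw [div_lt_iff₀ (by positivity)] at hn
  linarith

/-- **No lattice tiling of Voronoi type.** -/
theorem no_voronoi_lattice [CompleteSpace H] [TopologicalSpace.SeparableSpace H]
    (hH : ¬ FiniteDimensional ℝ H) (A : AddSubgroup H) (β : A →+ H)
    (hsymm : ∀ a b : A, ⟪β a, (b : H)⟫ = ⟪β b, (a : H)⟫)
    (hint : (interior (cell A β)).Nonempty) (hbdd : Bornology.IsBounded (cell A β)) :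
    ∃ x : H, ∀ a : A, x - a ∉ cell A β := by
  by_contra hcon
  push Not at hcon
  obtain ⟨r, hr, hball⟩ := exists_ball_cell hint
  obtain ⟨R0, hR0⟩ := hbdd.exists_norm_le
  set R : ℝ := |R0| + 1 with hRdef
  have hRpos : 0 < R := by positivity
  have hR : ∀ x ∈ cell A β, ‖x‖ ≤ R := fun x hx => by
    have := hR0 x hx
    have := le_abs_self R0
    linarith
  have h0 : (0 : H) ∈ cell A β := hball 0 (by simpa using hr.le)
  have h2r := two_r_le hr hball hR hsymm
  have hnn := inner_self_nonneg' hr hball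
  -- countability
  have hcount : Countable A := by
    have hpd : (A : Set H).PairwiseDisjoint (fun a => Metric.ball a r) := by
      intro a ha b hb hab
      refine Metric.ball_disjoint_ball ?_
      have h1 := h2r ⟨a - b, A.sub_mem ha hb⟩ (sub_ne_zero.2 hab)
      rw [dist_eq_norm]
      linarith
    exact (hpd.countable_of_isOpen (fun a _ => Metric.isOpen_ball)
      fun a _ => ⟨a, Metric.mem_ball_self hr⟩).to_subtype
  -- either the potential is coercive or there are small values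
  by_cases hb : ∀ M, Bornology.IsBounded {x : H | ∀ a : A, ⟪β a, x⟫ + -(⟪β a, (a : H)⟫ / 2) ≤ M}
  · obtain ⟨x, hx⟩ := exists_not_attained hH (fun a : A => β a)
      (fun a : A => -(⟪β a, (a : H)⟫ / 2)) hb
    obtain ⟨a, ha⟩ := hcon x
    obtain ⟨b, hab⟩ := hx a
    have := attained ha hsymm b
    linarith
  · push Not at hb
    obtain ⟨M, hM⟩ := hb
    refine no_small_values hsymm hr hball hR hcon (C := 3 * R) fun η hη => ?_
    -- a far point of the sublevel set
    set N : ℝ := 3 * R * (|M| + 1) * 2 / η + 3 * R with hN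
    have hNpos : 0 < N := by positivity
    obtain ⟨z, hz, hzN⟩ : ∃ z ∈ {x : H | ∀ a : A, ⟪β a, x⟫ + -(⟪β a, (a : H)⟫ / 2) ≤ M},
        N < ‖z‖ := by
      by_contra h
      push Not at h
      exact hM (isBounded_iff_forall_norm_le.2 ⟨N, h⟩)
    have hzpos : 0 < ‖z‖ := hNpos.trans hzN
    set τ : ℝ := 3 * R / ‖z‖ with hτ
    have hτpos : 0 < τ := by positivity
    have hτ1 : τ ≤ 1 := by
      rw [hτ, div_le_one hzpos]
      have : 0 ≤ 3 * R * (|M| + 1) * 2 / η := by positivity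
      linarith
    set x : H := τ • z with hx
    have hxn : ‖x‖ = 3 * R := by
      rw [hx, norm_smul, Real.norm_eq_abs, abs_of_pos hτpos, hτ, div_mul_cancel₀ _ hzpos.ne']
    have hφx : ∀ a : A, ⟪β a, x⟫ + -(⟪β a, (a : H)⟫ / 2) ≤ η / 2 := by
      intro a
      have h1 := hz a
      have h2 : ⟪β a, x⟫ + -(⟪β a, (a : H)⟫ / 2) ≤ τ * M := by
        rw [hx, real_inner_smul_right]
        have h3 := mul_le_mul_of_nonneg_left h1 hτpos.le
        have h4 := hnn a
        nlinarith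
      refine h2.trans ?_
      have h5 : τ * M ≤ τ * (|M| + 1) := by
        have := le_abs_self M
        exact mul_le_mul_of_nonneg_left (by linarith) hτpos.le
      refine h5.trans ?_
      rw [hτ, div_mul_eq_mul_div, div_le_iff₀ hzpos]
      have h6 : 3 * R * (|M| + 1) * 2 / η ≤ ‖z‖ := by linarith
      rw [div_le_iff₀ hη] at h6
      linarith
    obtain ⟨b, hb⟩ := hcon ((1 / 2 : ℝ) • x)
    have hxh : ‖(1 / 2 : ℝ) • x‖ = 3 / 2 * R := by
      rw [norm_smul, hxn, Real.norm_eq_abs, abs_of_pos (by norm_num)]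
      ring
    refine ⟨b, ?_, ?_, ?_⟩
    · intro h
      rw [h, sub_zero] at hb
      have := hR _ hb
      rw [hxh] at this
      linarith
    · have h1 := norm_sub_le ((1 / 2 : ℝ) • x) ((1 / 2 : ℝ) • x - b)
      rw [sub_sub_cancel, hxh] at h1
      have h2 := hR _ hb
      linarith
    · have h1 := attained hb hsymm 0
      simp only [map_zero, inner_zero_left, zero_div, neg_zero, add_zero] at h1
      rw [real_inner_smul_right] at h1
      have h2 := hφx b
      linarith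

end Pool.Agent.Lib.MP_3191e9_an_helper66
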