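import Pool.Agent.Lib.MP_3191e9_an_helper66.KK

/-!
Helper file (helper66) for `MP_3191e9_an`: points of continuity of a bounded closed convex set
are weakly dense, and the general form of the theorem on tilings by translates.
-/

open Filter Topology Set
open scoped RealInnerProductSpace

namespace Pool.Agent.Lib.MP_3191e9_an_helper66

variable {H : Type*} [NormedAddCommGroup H] [InnerProductSpace ℝ H]

/-- Inside a weak neighbourhood there is a smaller one of small norm diameter. -/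
theorem exists_shrink {K : Set H} (hbd : Bornology.IsBounded K) {z0 : H} (hz0 : z0 ∈ K)
    (G : Finset H) {η : ℝ} (hη : 0 < η) {ε : ℝ} (hε : 0 < ε) :
    ∃ z1 ∈ K, ∃ G' : Finset H, ∃ η' > 0, ∀ u ∈ K, (∀ g ∈ G', |⟪g, u - z1⟫| ≤ η') →
      (∀ g ∈ G, |⟪g, u - z0⟫| < η) ∧ ‖u - z1‖ ≤ ε := by
  classical
  obtain ⟨R0, hR0⟩ := hbd.exists_norm_le
  set R : ℝ := |R0| with hR
  have hRK : ∀ z ∈ K, ‖z‖ ≤ R := fun z hz => (hR0 z hz).trans (le_abs_self R0)
  have hRnn : 0 ≤ R := abs_nonneg _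
  -- sup of the square of the norm over weak neighbourhoods
  set Q : ℝ → Set ℝ := fun s => {t | ∃ z ∈ K, (∀ g ∈ G, |⟪g, z - z0⟫| ≤ s) ∧ t = ‖z‖ ^ 2} with hQ
  have hQne : ∀ s, 0 ≤ s → (Q s).Nonempty := fun s hs =>
    ⟨‖z0‖ ^ 2, z0, hz0, fun g _ => by simpa using hs, rfl⟩
  have hQbd : ∀ s, BddAbove (Q s) := fun s => ⟨R ^ 2, by
    rintro t ⟨z, hz, -, rfl⟩
    exact pow_le_pow_left₀ (norm_nonneg _) (hRK z hz) 2⟩
  set al : ℝ → ℝ := fun s => sSup (Q s) with hal
  have hal_le : ∀ s, 0 ≤ s → al s ≤ R ^ 2 := fun s hs => csSup_le (hQne s hs) (by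
    rintro t ⟨z, hz, -, rfl⟩
    exact pow_le_pow_left₀ (norm_nonneg _) (hRK z hz) 2)
  have hal_nn : ∀ s, 0 ≤ s → 0 ≤ al s := fun s hs => by
    obtain ⟨t, ht⟩ := hQne s hs
    have h1 := le_csSup (hQbd s) ht
    obtain ⟨z, -, -, rfl⟩ := ht
    exact (sq_nonneg _).trans h1
  set τ : ℝ := ε ^ 2 / 8 with hτ
  have hτpos : 0 < τ := by positivity
  -- a step with small increase
  obtain ⟨N, hN⟩ := exists_nat_gt (R ^ 2 / τ)
  have hNpos : (0 : ℝ) < N + 1 := by positivity
  set s : ℕ → ℝ := fun i => η / 2 * (i / (N + 1)) with hs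
  have hs0 : ∀ i, 0 ≤ s i := fun i => by simp only [hs]; positivity
  have hstep : ∃ i, i ≤ N ∧ al (s (i + 1)) - al (s i) < τ := by
    by_contra hcon
    push Not at hcon
    have hind : ∀ i, i ≤ N + 1 → (i : ℝ) * τ ≤ al (s i) := by
      intro i
      induction i with
      | zero => intro _; simpa using hal_nn (s 0) (hs0 0)
      | succ i ih =>
        intro hi
        have h1 := ih (by omega)
        have h2 := hcon i (by omega)
        push_cast
        linarith
    have h1 := hind (N + 1) le_rfl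
    have h2 := hal_le (s (N + 1)) (hs0 _)
    push_cast at h1
    rw [div_lt_iff₀ hτpos] at hN
    linarith
  obtain ⟨i, hiN, hi⟩ := hstep
  have hslt : s i < s (i + 1) := by
    simp only [hs]
    push_cast
    gcongr
    linarith
  have hsη : s (i + 1) < η := by
    simp only [hs]
    have h1 : ((i + 1 : ℕ) : ℝ) / (N + 1) ≤ 1 := by
      rw [div_le_one hNpos]
      push_cast
      have : (i : ℝ) ≤ N := by exact_mod_cast hiN
      linarith
    have h2 : η / 2 * (((i + 1 : ℕ) : ℝ) / (N + 1)) ≤ η / 2 * 1 :=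
      mul_le_mul_of_nonneg_left h1 (by positivity)
    linarith
  obtain ⟨t, ⟨z1, hz1, hz1G, rfl⟩, ht⟩ := exists_lt_of_lt_csSup (hQne (s i) (hs0 i))
    (show al (s i) - τ < sSup (Q (s i)) by simp only [hal]; linarith)
  refine ⟨z1, hz1, insert z1 G, min (s (i + 1) - s i) τ, lt_min (by linarith) hτpos,
    fun u hu huG => ?_⟩
  have huG' : ∀ g ∈ G, |⟪g, u - z0⟫| ≤ s (i + 1) := by
    intro g hg
    have h1 := (huG g (Finset.mem_insert_of_mem hg)).trans (min_le_left _ _)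
    have h2 := hz1G g hg
    have e : ⟪g, u - z0⟫ = ⟪g, u - z1⟫ + ⟪g, z1 - z0⟫ := by
      rw [← inner_add_right]; congr 1; abel
    rw [e]
    exact (abs_add_le _ _).trans (by linarith)
  refine ⟨fun g hg => (huG' g hg).trans_lt hsη, ?_⟩
  have h1 : ‖u‖ ^ 2 ≤ al (s (i + 1)) := le_csSup (hQbd _) ⟨u, hu, huG', rfl⟩
  have h2 := (huG z1 (Finset.mem_insert_self _ _)).trans (min_le_right _ _)
  have h3 : ‖u - z1‖ ^ 2 = ‖u‖ ^ 2 - ‖z1‖ ^ 2 - 2 * ⟪z1, u - z1⟫ := by
    have e : u = z1 + (u - z1) := by abel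
    have h4 : ‖u‖ ^ 2 = ‖z1‖ ^ 2 + 2 * ⟪z1, u - z1⟫ + ‖u - z1‖ ^ 2 := by
      nth_rw 1 [e]
      rw [norm_add_sq_real]
    linarith
  have h4 := (abs_le.1 h2).1
  have h5 : ‖u - z1‖ ^ 2 ≤ ε ^ 2 := by
    have h6 : 8 * τ = ε ^ 2 := by rw [hτ]; ring
    linarith
  exact (sq_le_sq₀ (norm_nonneg _) hε.le).1 h5

/-- Weak density of the points of continuity. -/
theorem exists_pc [CompleteSpace H] {K : Set H} (hcl : IsClosed K)
    (hbd : Bornology.IsBounded K) {z0 : H} (hz0 : z0 ∈ K) (G : Finset H) {η : ℝ} (hη : 0 < η) :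
    ∃ x ∈ pcPts K, ∀ g ∈ G, |⟪g, x - z0⟫| < η := by
  classical
  -- states
  let St := {s : H × Finset H × ℝ // s.1 ∈ K ∧ 0 < s.2.2}
  have step : ∀ (n : ℕ) (s : St), ∃ s' : St, ∀ u ∈ K,
      (∀ g ∈ s'.1.2.1, |⟪g, u - s'.1.1⟫| ≤ s'.1.2.2) →
      (∀ g ∈ s.1.2.1, |⟪g, u - s.1.1⟫| < s.1.2.2) ∧ ‖u - s'.1.1‖ ≤ (1 / 2) ^ n := by
    rintro n ⟨⟨z, G, η⟩, hz, hη⟩
    obtain ⟨z1, hz1, G', η', hη', h⟩ := exists_shrink hbd hz G hη (ε := (1 / 2) ^ n)
      (by positivity)
    exact ⟨⟨(z1, G', η'), hz1, hη'⟩, h⟩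
  choose nxt hnxt using step
  let s : ℕ → St := fun n => Nat.rec ⟨(z0, G, η), hz0, hη⟩ (fun k s => nxt k s) n
  have hsucc : ∀ n, s (n + 1) = nxt n (s n) := fun n => rfl
  set z : ℕ → H := fun n => (s n).1.1 with hz
  set V : ℕ → H → Prop := fun n u => ∀ g ∈ (s n).1.2.1, |⟪g, u - z n⟫| ≤ (s n).1.2.2 with hV
  have hstep : ∀ n, ∀ u ∈ K, V (n + 1) u →
      (∀ g ∈ (s n).1.2.1, |⟪g, u - z n⟫| < (s n).1.2.2) ∧ ‖u - z (n + 1)‖ ≤ (1 / 2) ^ n := by
    intro n u hu huV
    have := hnxt n (s n) u hu (by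
      intro g hg
      exact huV g (by rw [hsucc]; exact hg))
    exact this
  have hVmono : ∀ m n, m ≤ n → ∀ u ∈ K, V n u → V m u := by
    intro m n hmn
    induction n, hmn using Nat.le_induction with
    | base => exact fun u _ h => h
    | succ n hmn ih =>
      intro u hu huV
      exact ih u hu fun g hg => ((hstep n u hu huV).1 g hg).le
  have hzK : ∀ n, z n ∈ K := fun n => (s n).2.1
  have hzV : ∀ n, V n (z n) := fun n g _ => by
    rw [sub_self, inner_zero_right, abs_zero]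
    exact (s n).2.2.le
  have hzz : ∀ m n, m ≤ n → V m (z n) := fun m n hmn => hVmono m n hmn _ (hzK n) (hzV n)
  have hcauchy : CauchySeq z := by
    rw [Metric.cauchySeq_iff']
    intro ε hε
    obtain ⟨n, hn⟩ := exists_pow_lt_of_lt_one hε (by norm_num : (1 / 2 : ℝ) < 1)
    refine ⟨n + 1, fun m hm => ?_⟩
    rw [dist_eq_norm]
    exact ((hstep n (z m) (hzK m) (hzz (n + 1) m hm)).2).trans_lt hn
  obtain ⟨x, hx⟩ := cauchySeq_tendsto_of_complete hcauchy
  have hxK : x ∈ K := hcl.mem_of_tendsto hx (Eventually.of_forall hzK)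
  have hxV : ∀ n, V n x := by
    intro n g hg
    have h1 : Tendsto (fun m => |⟪g, z m - z n⟫|) atTop (𝓝 |⟪g, x - z n⟫|) := by
      have hc : Continuous fun u : H => |⟪g, u - z n⟫| := by fun_prop
      exact (hc.tendsto x).comp hx
    refine le_of_tendsto h1 ?_
    filter_upwards [eventually_ge_atTop n] with m hm
    exact hzz n m hm g hg
  refine ⟨x, ⟨hxK, fun ε hε => ?_⟩, ?_⟩
  · obtain ⟨n, hn⟩ := exists_pow_lt_of_lt_one (half_pos hε) (by norm_num : (1 / 2 : ℝ) < 1)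
    -- strict inequalities at level n+1
    have hstrict := (hstep (n + 1) x hxK (hxV (n + 2))).1
    set Gn := (s (n + 1)).1.2.1 with hGn
    set ηn := (s (n + 1)).1.2.2 with hηn
    obtain ⟨θ, hθ, hθG⟩ : ∃ θ > 0, ∀ g ∈ Gn, |⟪g, x - z (n + 1)⟫| + θ ≤ ηn := by
      have : ∀ T : Finset H, (∀ g ∈ T, |⟪g, x - z (n + 1)⟫| < ηn) →
          ∃ θ > 0, ∀ g ∈ T, |⟪g, x - z (n + 1)⟫| + θ ≤ ηn := by
        intro T
        induction T using Finset.induction_on with
        | empty => intro _; exact ⟨1, one_pos, by simp⟩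
        | insert a T _ ih =>
          intro h
          obtain ⟨θ, hθ, h1⟩ := ih fun g hg => h g (Finset.mem_insert_of_mem hg)
          have h2 := h a (Finset.mem_insert_self _ _)
          refine ⟨min θ (ηn - |⟪a, x - z (n + 1)⟫|), lt_min hθ (by linarith), fun g hg => ?_⟩
          rw [Finset.mem_insert] at hg
          rcases hg with rfl | hg
          · have := min_le_right θ (ηn - |⟪g, x - z (n + 1)⟫|)
            linarith
          · have := min_le_left θ (ηn - |⟪a, x - z (n + 1)⟫|)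
            have := h1 g hg
            linarith
      exact this Gn hstrict
    refine ⟨Gn, θ, hθ, fun u hu huG => ?_⟩
    have huV : V (n + 1) u := by
      intro g hg
      have h1 := huG g hg
      have h2 := hθG g hg
      have e : ⟪g, u - z (n + 1)⟫ = ⟪g, u - x⟫ + ⟪g, x - z (n + 1)⟫ := by
        rw [← inner_add_right]; congr 1; abel
      show |⟪g, u - z (n + 1)⟫| ≤ ηn
      rw [e]
      exact (abs_add_le _ _).trans (by linarith)
    have h1 := (hstep n u hu huV).2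
    have h2 := (hstep n x hxK (hxV (n + 1))).2
    have e : u - x = (u - z (n + 1)) - (x - z (n + 1)) := by abel
    rw [e]
    have := norm_sub_le (u - z (n + 1)) (x - z (n + 1))
    linarith
  · exact (hstep 0 x hxK (hxV 1)).1

/-- Points of continuity are shallow. -/
theorem pcPts_subset_shallow (hH : ¬ FiniteDimensional ℝ H) {K : Set H} :
    pcPts K ⊆ shallow K := by
  classical
  rintro x ⟨hxK, hx⟩
  refine ⟨hxK, fun δ hδ hmem => ?_⟩
  obtain ⟨G, η, hη, hG⟩ := hx (δ / 2) (by positivity)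
  -- a bound for the norms of the elements of G
  obtain ⟨C, hC, hCG⟩ : ∃ C > 0, ∀ g ∈ G, ‖g‖ ≤ C := by
    refine ⟨∑ g ∈ G, ‖g‖ + 1, by positivity, fun g hg => ?_⟩
    have h0 : ‖g‖ ≤ ∑ g ∈ G, ‖g‖ :=
      Finset.single_le_sum (f := fun g : H => ‖g‖) (fun i _ => norm_nonneg i) hg
    linarith
  obtain ⟨y, ⟨hyK, F, hF, hyF⟩, hxy⟩ := Metric.mem_closure_iff.1 hmem (min (η / C) (δ / 4))
    (lt_min (by positivity) (by positivity))
  have hGf : FiniteDimensional ℝ (Submodule.span ℝ (G : Set H)) :=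
    FiniteDimensional.span_finset ℝ _
  have hsup : FiniteDimensional ℝ (F ⊔ Submodule.span ℝ (G : Set H) : Submodule ℝ H) :=
    Submodule.finiteDimensional_sup _ _
  obtain ⟨v, hv, hvn⟩ := exists_orth hH (F ⊔ Submodule.span ℝ (G : Set H)) hδ.le
  have h1 : v ∈ Fᗮ := Submodule.orthogonal_le le_sup_left hv
  have h2 : v ∈ (Submodule.span ℝ (G : Set H))ᗮ := Submodule.orthogonal_le le_sup_right hv
  have hxy' : ‖y - x‖ < min (η / C) (δ / 4) := by rwa [dist_comm, dist_eq_norm] at hxy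
  have h3 := hG (y + v) (hyF v h1 hvn.le) (by
    intro g hg
    have e : ⟪g, y + v - x⟫ = ⟪g, y - x⟫ := by
      have h4 : ⟪g, v⟫ = 0 :=
        (Submodule.mem_orthogonal _ _).1 h2 _ (Submodule.subset_span hg)
      have e2 : y + v - x = (y - x) + v := by abel
      rw [e2, inner_add_right, h4, add_zero]
    rw [e]
    have h5 := abs_real_inner_le_norm g (y - x)
    have h6 : ‖y - x‖ < η / C := hxy'.trans_le (min_le_left _ _)
    calc |⟪g, y - x⟫| ≤ ‖g‖ * ‖y - x‖ := h5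
      _ ≤ C * ‖y - x‖ := mul_le_mul_of_nonneg_right (hCG g hg) (norm_nonneg _)
      _ < C * (η / C) := mul_lt_mul_of_pos_left h6 hC
      _ = η := by field_simp)
  have h4 : ‖y - x‖ < δ / 4 := hxy'.trans_le (min_le_right _ _)
  have h5 : ‖v‖ ≤ ‖y + v - x‖ + ‖y - x‖ := by
    have := norm_sub_le (y + v - x) (y - x)
    have e : y + v - x - (y - x) = v := by abel
    rwa [e] at this
  linarith

/-- A set of shallow points which is rich enough for the category argument. -/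
structure Rich (K S : Set H) : Prop where
  sub : S ⊆ shallow K
  half : ∀ x ∈ S, ∀ (g : H) (t : ℝ), x ∈ closure (K ∩ {y | ⟪g, y⟫ < t}) →
    x ∈ closure (S ∩ {y | ⟪g, y⟫ < t})
  near : ∀ ε > 0, ∃ δ > 0, ∀ x ∈ K, x ∉ deepPts K δ → ∃ y ∈ S, ‖y - x‖ < ε

theorem rich_of_manyShallow {K : Set H} (hG : ManyShallow K) : Rich K (shallow K) := by
  refine ⟨subset_rfl, ?_, ?_⟩
  · intro x hx g t hxc
    rw [Metric.mem_closure_iff]
    intro ε hε
    obtain ⟨δ, hδ, hGδ⟩ := hG (ε / 2) (by positivity)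
    have hnhds : (closure (deepPts K δ))ᶜ ∩ Metric.ball x (ε / 2) ∈ 𝓝 x :=
      inter_mem (isClosed_closure.isOpen_compl.mem_nhds (hx.2 δ hδ))
        (Metric.ball_mem_nhds x (by positivity))
    obtain ⟨x0, ⟨hx1, hx2⟩, hx3, hx4⟩ := mem_closure_iff_nhds.1 hxc _ hnhds
    obtain ⟨v, hvF, hvn, hvs⟩ := hGδ x0 hx3 (fun h => hx1 (subset_closure h))
      (Submodule.span ℝ {g}) inferInstance
    have h0 : ⟪g, v⟫ = 0 :=
      (Submodule.mem_orthogonal _ _).1 hvF _ (Submodule.mem_span_singleton_self g)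
    refine ⟨x0 + v, ⟨hvs, ?_⟩, ?_⟩
    · show ⟪g, x0 + v⟫ < t
      rw [inner_add_right, h0, add_zero]
      exact hx4
    · rw [dist_comm, dist_eq_norm]
      have e : x0 + v - x = (x0 - x) + v := by abel
      rw [e]
      have h1 := norm_add_le (x0 - x) v
      have h2 : ‖x0 - x‖ < ε / 2 := by rwa [Metric.mem_ball, dist_eq_norm] at hx2
      linarith
  · intro ε hε
    obtain ⟨δ, hδ, hGδ⟩ := hG (ε / 2) (by positivity)
    refine ⟨δ, hδ, fun x hx hxd => ?_⟩
    obtain ⟨v, -, hvn, hvs⟩ := hGδ x hx hxd ⊥ inferInstance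
    exact ⟨x + v, hvs, by rw [add_sub_cancel_left]; linarith⟩

theorem rich_of_nearPC [CompleteSpace H] (hH : ¬ FiniteDimensional ℝ H) {K : Set H}
    (hcl : IsClosed K) (hbd : Bornology.IsBounded K) (hG : NearPC K) : Rich K (pcPts K) := by
  classical
  refine ⟨pcPts_subset_shallow hH, ?_, hG⟩
  intro x hx g t hxc
  rw [Metric.mem_closure_iff]
  intro ε hε
  obtain ⟨G, η, hη, hGx⟩ := hx.2 ε hε
  obtain ⟨C, hC, hCG⟩ : ∃ C > 0, ∀ g ∈ G, ‖g‖ ≤ C := by
    refine ⟨∑ g ∈ G, ‖g‖ + 1, by positivity, fun g hg => ?_⟩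
    have h0 : ‖g‖ ≤ ∑ g ∈ G, ‖g‖ :=
      Finset.single_le_sum (f := fun g : H => ‖g‖) (fun i _ => norm_nonneg i) hg
    linarith
  obtain ⟨z0, ⟨hz0K, hz0t⟩, hz0⟩ := Metric.mem_closure_iff.1 hxc (η / (2 * C)) (by positivity)
  have hz0t' : ⟪g, z0⟫ < t := hz0t
  obtain ⟨x', hx', hx'G⟩ := exists_pc hcl hbd hz0K (insert g G)
    (η := min (η / 2) (t - ⟪g, z0⟫)) (lt_min (by positivity) (by linarith))
  refine ⟨x', ⟨hx', ?_⟩, ?_⟩
  · have h1 := (hx'G g (Finset.mem_insert_self _ _)).trans_le (min_le_right _ _)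
    rw [inner_sub_right] at h1
    have h2 := (abs_lt.1 h1).2
    show ⟪g, x'⟫ < t
    linarith
  · rw [dist_comm, dist_eq_norm]
    refine hGx x' hx'.1 fun g' hg' => ?_
    have h1 := (hx'G g' (Finset.mem_insert_of_mem hg')).trans_le (min_le_left _ _)
    have h2 := abs_real_inner_le_norm g' (z0 - x)
    have h3 : ‖z0 - x‖ < η / (2 * C) := by rwa [dist_comm, dist_eq_norm] at hz0
    have h4 : ‖g'‖ * ‖z0 - x‖ < η / 2 := by
      calc ‖g'‖ * ‖z0 - x‖ ≤ C * ‖z0 - x‖ :=
            mul_le_mul_of_nonneg_right (hCG g' hg') (norm_nonneg _)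
        _ < C * (η / (2 * C)) := mul_lt_mul_of_pos_left h3 hC
        _ = η / 2 := by field_simp
    have e : ⟪g', x' - x⟫ = ⟪g', x' - z0⟫ + ⟪g', z0 - x⟫ := by
      rw [← inner_add_right]; congr 1; abel
    rw [e]
    exact (abs_add_le _ _).trans_lt (by linarith)

/-- Leaving a tile different from the one of the state. -/
theorem leave_other [CompleteSpace H] {K A S : Set H} (hK : Convex ℝ K)
    (hi : (interior K).Nonempty) (hA : IsTil K A) (hS : Rich K S) {a y : H} (ha : a ∈ A)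
    (hy : y - a ∈ S) {b : H} (hb : b ∈ A) (hab : a ≠ b) {ε : ℝ} (hε : 0 < ε) :
    ∃ y' : H, y' - a ∈ S ∧ ‖y' - y‖ < ε ∧ y' ∉ tr b K := by
  obtain ⟨g, t, hg1, hg2⟩ := exists_sep hK hi hA ha hb hab
  have hyc : y ∈ closure (interior (tr a K)) :=
    tr_subset_closure_interior hK hi a (hS.sub hy).1
  have hyc' : y - a ∈ closure (K ∩ {u | ⟪g, u⟫ < t - ⟪g, a⟫}) := by
    rw [Metric.mem_closure_iff] at hyc ⊢
    intro ε hε
    obtain ⟨p, hp1, hp2⟩ := hyc ε hε
    refine ⟨p - a, ⟨mem_tr.1 (interior_subset hp1), ?_⟩, ?_⟩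
    · show ⟪g, p - a⟫ < t - ⟪g, a⟫
      rw [inner_sub_right]
      linarith [hg1 p hp1]
    · rw [dist_sub_right]; exact hp2
  obtain ⟨z, ⟨hz1, hz2⟩, hz3⟩ := Metric.mem_closure_iff.1 (hS.half _ hy g _ hyc') ε hε
  refine ⟨z + a, by rwa [add_sub_cancel_right], ?_, fun hmem => ?_⟩
  · rw [dist_comm, dist_eq_norm] at hz3
    have e : z + a - y = z - (y - a) := by abel
    rw [e]
    exact hz3
  · have h1 := hg2 _ hmem
    have h2 : ⟪g, z⟫ < t - ⟪g, a⟫ := hz2
    rw [inner_add_right] at h1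
    linarith

/-- Leaving any tile. -/
theorem leave_any [CompleteSpace H] {K A S : Set H} (hK : Convex ℝ K)
    (hi : (interior K).Nonempty) (hbd : Bornology.IsBounded K) (hA : IsTil K A)
    (hS : Rich K S) {a y : H} (ha : a ∈ A)
    (hy : y - a ∈ S) {b : H} (hb : b ∈ A) {ε : ℝ} (hε : 0 < ε) :
    ∃ a' ∈ A, ∃ y' : H, y' - a' ∈ S ∧ ‖y' - y‖ < ε ∧ y' ∉ tr b K := by
  by_cases hba : b = a
  · subst hba
    obtain ⟨δ, hδ, hGδ⟩ := hS.near (ε / 3) (by positivity)
    obtain ⟨c, p, hcA, hcb, hcinj, hcp, hlim⟩ := exists_tiles hK hi hA ha (hS.sub hy)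
    obtain ⟨n, hn1, hn2⟩ : ∃ n, p n - c n ∉ deepPts K δ ∧ ‖p n - y‖ < ε / 3 := by
      by_contra hcon
      push Not at hcon
      have hev : ∀ᶠ n in atTop, ‖p n - y‖ < ε / 3 := by
        have := Metric.tendsto_nhds.1 hlim (ε / 3) (by positivity)
        simpa [dist_eq_norm] using this
      obtain ⟨N, hN⟩ := eventually_atTop.1 hev
      obtain ⟨c0, hc0⟩ := hi
      obtain ⟨r, hr, hrK⟩ := Metric.mem_nhds_iff.1 (mem_interior_iff_mem_nhds.1 hc0)
      obtain ⟨R, hR⟩ := hbd.exists_norm_le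
      have hdeep : ∀ n, p (N + n) - c (N + n) ∈ deepPts K δ := by
        intro n
        by_contra h
        have := hcon (N + n) h
        have h2 := hN (N + n) (Nat.le_add_right _ _)
        linarith
      refine no_deep_phantoms hK (c := c0) (r := r / 2) (by positivity)
        ((Metric.closedBall_subset_ball (by linarith)).trans hrK) hδ
        (b := fun n => c (N + n)) (k := fun n => p (N + n) - c (N + n))
        (fun m n h => Nat.add_left_cancel (hcinj h))
        (fun m n h => hA.disj _ (hcA _) _ (hcA _) h) hdeep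
        (B := ‖y‖ + ε / 3 + R) ?_ (y := y) ?_
      · intro n
        have h1 : c (N + n) = y + (p (N + n) - y) - (p (N + n) - c (N + n)) := by abel
        have h2 := hR _ (mem_tr.1 (interior_subset (hcp (N + n))))
        have h3 := hN (N + n) (Nat.le_add_right _ _)
        have h4 := norm_sub_le (y + (p (N + n) - y)) (p (N + n) - c (N + n))
        have h5 := norm_add_le y (p (N + n) - y)
        show ‖c (N + n)‖ ≤ _
        rw [h1]
        linarith
      · have : Tendsto (fun n => p (N + n)) atTop (𝓝 y) := by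
          have h1 := (tendsto_add_atTop_iff_nat N).2 hlim
          simpa [add_comm] using h1
        refine this.congr fun n => ?_
        show p (N + n) = c (N + n) + (p (N + n) - c (N + n))
        abel
    obtain ⟨s, hs, hsn⟩ := hGδ _ (mem_tr.1 (interior_subset (hcp n))) hn1
    have hy1 : (c n + s) - c n ∈ S := by rwa [add_sub_cancel_left]
    obtain ⟨y', hy'1, hy'2, hy'3⟩ := leave_other hK hi hA hS (hcA n) hy1 hb (hcb n)
      (ε := ε / 3) (by positivity)
    refine ⟨c n, hcA n, y', hy'1, ?_, hy'3⟩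
    have e : y' - y = (y' - (c n + s)) + (s - (p n - c n)) + (p n - y) := by abel
    rw [e]
    have n1 := norm_add_le ((y' - (c n + s)) + (s - (p n - c n))) (p n - y)
    have n2 := norm_add_le (y' - (c n + s)) (s - (p n - c n))
    linarith
  · obtain ⟨y', h1, h2, h3⟩ := leave_other hK hi hA hS ha hy hb (Ne.symm hba) hε
    exact ⟨a, ha, y', h1, h2, h3⟩

/-- **General theorem on tilings by translates.** -/
theorem no_tiling_rich [CompleteSpace H] [TopologicalSpace.SeparableSpace H]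
    (hH : ¬ FiniteDimensional ℝ H) {K S : Set H} (hK : Convex ℝ K)
    (hi : (interior K).Nonempty) (hcl : IsClosed K) (hbd : Bornology.IsBounded K)
    (hS : Rich K S) (A : Set H) : ¬ IsTil K A := by
  intro hA
  have hKne : K.Nonempty := hi.mono interior_subset
  obtain ⟨a0, ha0, -⟩ := hA.cover 0
  obtain ⟨δ, hδ, hGδ⟩ := hS.near 1 one_pos
  obtain ⟨x0, hx0, hx0d⟩ := exists_not_deep hH hKne hbd hδ
  obtain ⟨s0, hs0, -⟩ := hGδ x0 hx0 hx0d
  set P : Set H := {y | ∃ a ∈ A, y - a ∈ S} with hP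
  have hPne : P.Nonempty := ⟨s0 + a0, a0, ha0, by rwa [add_sub_cancel_right]⟩
  set X : Set H := closure P with hX
  have hXc : IsClosed X := isClosed_closure
  have : CompleteSpace X := hXc.completeSpace_coe
  have : Nonempty X := (hPne.mono subset_closure).to_subtype
  have hcount : A.Countable := by
    have hpd : A.PairwiseDisjoint (fun a => interior (tr a K)) := fun a ha b hb hab =>
      hA.disj a ha b hb hab
    refine hpd.countable_of_isOpen (fun a _ => isOpen_interior) fun a _ => ?_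
    rw [interior_tr]
    obtain ⟨c, hc⟩ := hi
    exact ⟨c + a, by rw [mem_tr, add_sub_cancel_right]; exact hc⟩
  have : Countable A := hcount.to_subtype
  have hcov : (⋃ a : A, {x : X | (x : H) ∈ tr (a : H) K}) = univ := by
    rw [eq_univ_iff_forall]
    intro x
    obtain ⟨a, ha, hx⟩ := hA.cover x
    exact mem_iUnion.2 ⟨⟨a, ha⟩, hx⟩
  obtain ⟨⟨b, hb⟩, x, hx⟩ := nonempty_interior_of_iUnion_of_closed
    (fun a : A => (isClosed_tr hcl (a : H)).preimage continuous_subtype_val) hcov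
  obtain ⟨ρ, hρ, hball⟩ := Metric.mem_nhds_iff.1 (mem_interior_iff_mem_nhds.1 hx)
  obtain ⟨y, ⟨a, ha, hya⟩, hxy⟩ := Metric.mem_closure_iff.1 x.2 (ρ / 2) (by positivity)
  obtain ⟨a', ha', y', hya', hyy', hout⟩ :=
    leave_any hK hi hbd hA hS ha hya hb (ε := ρ / 2) (by positivity)
  have hy'X : y' ∈ X := subset_closure ⟨a', ha', hya'⟩
  have hmem : (⟨y', hy'X⟩ : X) ∈ Metric.ball x ρ := by
    rw [Metric.mem_ball, Subtype.dist_eq]
    show dist y' (x : H) < ρ
    have h1 := dist_triangle y' y (x : H)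
    rw [dist_comm] at hxy
    rw [← dist_eq_norm] at hyy'
    linarith
  exact hout (hball hmem)

end Pool.Agent.Lib.MP_3191e9_an_helper66
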