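import Pool.Agent.Lib.MP_3191e9_an_helper66.Defs

/-!
Helper file (helper66) for the tiling problem `MP_3191e9_an`: deep points of a convex body,
weak limits along an ultrafilter, and the packing lemma `no deep phantoms`.
-/

open Filter Topology Set
open scoped RealInnerProductSpace

namespace Pool.Agent.Lib.MP_3191e9_an_helper66

variable {H : Type*} [NormedAddCommGroup H] [InnerProductSpace ℝ H]

theorem deepPts_subset (K : Set H) (δ : ℝ) : deepPts K δ ⊆ K := fun _ hx => hx.1

theorem convex_deepPts {K : Set H} (hK : Convex ℝ K) (δ : ℝ) : Convex ℝ (deepPts K δ) := by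
  rintro x ⟨hx, F, hF, hxF⟩ y ⟨hy, G, hG, hyG⟩ a b ha hb hab
  refine ⟨hK hx hy ha hb hab, F ⊔ G, Submodule.finiteDimensional_sup F G, ?_⟩
  intro v hv hvn
  have h1 : v ∈ Fᗮ := Submodule.orthogonal_le le_sup_left hv
  have h2 : v ∈ Gᗮ := Submodule.orthogonal_le le_sup_right hv
  have h3 := hK (hxF v h1 hvn) (hyG v h2 hvn) ha hb hab
  have e : a • x + b • y + v = a • (x + v) + b • (y + v) := by
    have : v = (a + b) • v := by rw [hab, one_smul]
    rw [smul_add, smul_add]
    nth_rw 1 [this]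
    rw [add_smul]
    abel
  rw [e]
  exact h3

/-- Weak limits of bounded sequences along an ultrafilter. -/
theorem exists_weak_limit [CompleteSpace H] (U : Ultrafilter ℕ) (b : ℕ → H) (M : ℝ)
    (hb : ∀ n, ‖b n‖ ≤ M) :
    ∃ x : H, ∀ v : H, Tendsto (fun n => ⟪b n, v⟫) U (𝓝 ⟪x, v⟫) := by
  let φ : ℕ → WeakDual ℝ H := fun n =>
    StrongDual.toWeakDual (InnerProductSpace.toDual ℝ H (b n))
  have hmem : ∀ n, φ n ∈ WeakDual.toStrongDual ⁻¹' Metric.closedBall (0 : StrongDual ℝ H) M := by
    intro n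
    simp only [mem_preimage, Metric.mem_closedBall, dist_zero_right, φ]
    have : WeakDual.toStrongDual (StrongDual.toWeakDual (InnerProductSpace.toDual ℝ H (b n)))
      = InnerProductSpace.toDual ℝ H (b n) := rfl
    rw [this, LinearIsometryEquiv.norm_map]
    exact hb n
  have hc := WeakDual.isCompact_closedBall (𝕜 := ℝ) (E := H) 0 M
  have hU : (U.map φ : Filter (WeakDual ℝ H)) ≤
      𝓟 (WeakDual.toStrongDual ⁻¹' Metric.closedBall (0 : StrongDual ℝ H) M) := by
    rw [Ultrafilter.coe_map, le_principal_iff, mem_map]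
    exact univ_mem' hmem
  obtain ⟨f, -, hf⟩ := hc.ultrafilter_le_nhds (U.map φ) hU
  have ht : Tendsto φ U (𝓝 f) := by
    rw [Ultrafilter.coe_map] at hf
    exact hf
  refine ⟨(InnerProductSpace.toDual ℝ H).symm (WeakDual.toStrongDual f), fun v => ?_⟩
  rw [InnerProductSpace.toDual_symm_apply]
  have h2 := ((WeakDual.eval_continuous v).tendsto f).comp ht
  exact h2

/-- Finite dimensional projections of a weakly null sequence tend to zero. -/
theorem tendsto_starProjection {l : Filter ℕ} {ν : ℕ → H}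
    (hν : ∀ v : H, Tendsto (fun n => ⟪ν n, v⟫) l (𝓝 0)) (F : Submodule ℝ H)
    [FiniteDimensional ℝ F] :
    Tendsto (fun n => F.starProjection (ν n)) l (𝓝 0) := by
  have key : ∀ x : H, F.starProjection x
      = ∑ i, ⟪x, (stdOrthonormalBasis ℝ F i : H)⟫ • (stdOrthonormalBasis ℝ F i : H) := by
    intro x
    have h1 := (stdOrthonormalBasis ℝ F).sum_repr' (F.orthogonalProjectionOnto x)
    rw [Submodule.starProjection_apply]
    nth_rw 1 [← h1]
    rw [Submodule.coe_sum]
    refine Finset.sum_congr rfl fun i _ => ?_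
    rw [Submodule.coe_smul, Submodule.inner_orthogonalProjectionOnto_eq_of_mem_left,
      real_inner_comm]
  simp_rw [key]
  have : (0 : H) = ∑ i : Fin (Module.finrank ℝ F), (0 : ℝ) • (stdOrthonormalBasis ℝ F i : H) := by
    simp
  rw [this]
  exact tendsto_finsetSum _ fun i _ => (hν _).smul_const _

/-- Translate of `K` by `a`. -/
def tr (a : H) (K : Set H) : Set H := {x | x - a ∈ K}

omit [InnerProductSpace ℝ H] in
theorem mem_tr {a x : H} {K : Set H} : x ∈ tr a K ↔ x - a ∈ K := Iff.rfl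

omit [InnerProductSpace ℝ H] in
theorem tr_eq (a : H) (K : Set H) : tr a K = (fun x => x - a) ⁻¹' K := rfl

theorem convex_tr {K : Set H} (hK : Convex ℝ K) (a : H) : Convex ℝ (tr a K) := by
  have := hK.translate_preimage_left (-a)
  rw [tr_eq]
  convert this using 1
  ext x
  simp [sub_eq_add_neg]

omit [InnerProductSpace ℝ H] in
theorem isClosed_tr {K : Set H} (hK : IsClosed K) (a : H) : IsClosed (tr a K) :=
  hK.preimage (continuous_id.sub continuous_const)

/-- If `p` lies in the tile `a + K`, the point `(1-lam) p + lam (a + c)` has a ball of radius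
`lam r` around it inside the tile. -/
theorem ball_mem_tr {K : Set H} (hK : Convex ℝ K) {c : H} {r : ℝ}
    (hc : Metric.closedBall c r ⊆ K) {a p : H} (hp : p - a ∈ K) {lam : ℝ} (h0 : 0 < lam)
    (h1 : lam ≤ 1) {x : H} (hx : ‖x - ((1 - lam) • p + lam • (a + c))‖ ≤ lam * r) :
    x ∈ tr a K := by
  set u : H := lam⁻¹ • (x - ((1 - lam) • p + lam • (a + c))) with hu
  have hun : ‖u‖ ≤ r := by
    rw [hu, norm_smul, Real.norm_eq_abs, abs_of_pos (inv_pos.2 h0), inv_mul_le_iff₀ h0]
    exact hx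
  have h2 : c + u ∈ K := hc (by simpa [Metric.mem_closedBall, dist_eq_norm] using hun)
  have h3 := hK hp h2 (sub_nonneg.2 h1) h0.le (by ring)
  rw [mem_tr]
  convert h3 using 1
  rw [hu, smul_add, smul_smul, mul_inv_cancel₀ h0.ne', one_smul]
  module

/-- The packing lemma: translates of `K` with pairwise disjoint interiors have no accumulation
at uniformly deep points. -/
theorem no_deep_phantoms [CompleteSpace H] {K : Set H} (hK : Convex ℝ K)
    {c : H} {r : ℝ} (hr : 0 < r) (hc : Metric.closedBall c r ⊆ K) {δ : ℝ} (hδ : 0 < δ)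
    {b k : ℕ → H} (hbi : Function.Injective b)
    (hdisj : ∀ m n, b m ≠ b n → Disjoint (interior (tr (b m) K)) (interior (tr (b n) K)))
    (hk : ∀ n, k n ∈ deepPts K δ) {B : ℝ} (hB : ∀ n, ‖b n‖ ≤ B) {y : H}
    (hy : Tendsto (fun n => b n + k n) atTop (𝓝 y)) : False := by
  -- weak limit
  set U : Ultrafilter ℕ := hyperfilter ℕ with hU
  have hUtop : (U : Filter ℕ) ≤ atTop := by
    rw [← Nat.cofinite_eq_atTop]; exact hyperfilter_le_cofinite
  obtain ⟨a, ha⟩ := exists_weak_limit U b B hB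
  set ν : ℕ → H := fun n => b n - a with hν
  have hνw : ∀ v : H, Tendsto (fun n => ⟪ν n, v⟫) U (𝓝 0) := by
    intro v
    have h1 := (ha v).sub_const ⟪a, v⟫
    simp only [sub_self] at h1
    refine h1.congr fun n => ?_
    simp only [hν, inner_sub_left]
  set M : ℝ := B + ‖a‖ + δ with hM
  have hB0 : 0 ≤ B := (norm_nonneg _).trans (hB 0)
  have hMpos : 0 < M := by positivity
  have hδM : δ ≤ M := by
    have := norm_nonneg a
    linarith
  have hνM : ∀ n, ‖ν n‖ ≤ M := by
    intro n
    have h1 := norm_sub_le (b n) a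
    have h2 := hB n
    simp only [hν]
    linarith
  have hyU : Tendsto (fun n => b n + k n) U (𝓝 y) := hy.mono_left hUtop
  -- the phantom point is in the closure of the deep points
  have hz : y - a ∈ closure (deepPts K δ) := by
    by_contra hz
    obtain ⟨f, u, hf1, hf2⟩ := geometric_hahn_banach_closed_point
      (convex_deepPts hK δ).closure isClosed_closure hz
    set g : H := (InnerProductSpace.toDual ℝ H).symm f with hg
    have hfg : ∀ x, f x = ⟪x, g⟫ := by
      intro x
      rw [real_inner_comm, hg, InnerProductSpace.toDual_symm_apply]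
    have h1 : Tendsto (fun n => f (b n + k n) - f (b n)) U (𝓝 (f y - f a)) := by
      refine ((f.continuous.tendsto y).comp hyU).sub ?_
      rw [hfg a]
      refine (ha g).congr fun n => ?_
      rw [hfg]
    have h2 : ∀ n, f (b n + k n) - f (b n) ≤ u := by
      intro n
      rw [map_add, add_sub_cancel_left]
      exact (hf1 _ (subset_closure (hk n))).le
    have h3 : f y - f a ≤ u := le_of_tendsto h1 (Eventually.of_forall h2)
    rw [map_sub] at hf2
    linarith
  -- parameters
  set κ0 : ℝ := δ / M with hκ0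
  have hκ0pos : 0 < κ0 := div_pos hδ hMpos
  have hκ01 : κ0 ≤ 1 := (div_le_one hMpos).2 hδM
  have hκ0M : κ0 * M = δ := div_mul_cancel₀ _ hMpos.ne'
  set s : ℝ := κ0 / 2 with hs
  have hspos : 0 < s := by positivity
  have hs1 : s ≤ 1 := by linarith
  have hsκ : 0 < s * κ0 := mul_pos hspos hκ0pos
  set lam : ℝ := s * κ0 / (1 + s * κ0) with hlam
  have hlampos : 0 < lam := by positivity
  have hlam1 : lam < 1 := by
    rw [hlam, div_lt_one (by positivity)]; linarith
  set κ : ℝ := s + s * κ0 with hκ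
  have hκpos : 0 < κ := by positivity
  have hκle : κ ≤ κ0 := by
    have h1 : s * κ0 ≤ s * 1 := mul_le_mul_of_nonneg_left hκ01 hspos.le
    rw [hκ]; linarith
  have hlamrel : (1 - lam) * (s * κ0) = lam := by
    rw [hlam]; field_simp; ring
  set ε : ℝ := lam * r / 16 with hε
  have hεpos : 0 < ε := by positivity
  obtain ⟨kb, ⟨hkbK, Fb, hFb, hkbF⟩, hkbz⟩ := Metric.mem_closure_iff.1 hz ε hεpos
  have ev1 : ∀ᶠ n in (U : Filter ℕ), ‖b n + k n - y‖ < ε := by
    have := Metric.tendsto_nhds.1 hyU ε hεpos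
    simpa [dist_eq_norm] using this
  have ev2 : ∀ (F : Submodule ℝ H) [FiniteDimensional ℝ F],
      ∀ᶠ n in (U : Filter ℕ), ‖F.starProjection (ν n)‖ < ε := by
    intro F _
    have := Metric.tendsto_nhds.1 (tendsto_starProjection hνw F) ε hεpos
    simpa using this
  obtain ⟨m, hm1, hm2⟩ := (ev1.and (ev2 Fb)).exists
  obtain ⟨hkmK, Fm, hFm, hkmF⟩ := hk m
  have ev3 : ∀ᶠ n in (U : Filter ℕ), n ≠ m := by
    have : ∀ᶠ n in (atTop : Filter ℕ), n ≠ m :=
      (eventually_gt_atTop m).mono fun n hn => hn.ne'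
    exact hUtop this
  obtain ⟨n, ⟨hn1, hn2⟩, hnm⟩ := ((ev1.and (ev2 Fm)).and ev3).exists
  have hbne : b m ≠ b n := fun h => hnm (hbi h).symm
  -- the two points
  have hwn : ν n - Fm.starProjection (ν n) ∈ Fmᗮ :=
    Submodule.sub_starProjection_mem_orthogonal _
  have hwm : ν m - Fb.starProjection (ν m) ∈ Fbᗮ :=
    Submodule.sub_starProjection_mem_orthogonal _
  have hnorm : ∀ (F : Submodule ℝ H) [FiniteDimensional ℝ F] (x : H),
      ‖x - F.starProjection x‖ ≤ ‖x‖ := by
    intro F _ x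
    have h1 := Submodule.norm_sq_eq_add_norm_sq_starProjection x F
    have h2 : x - F.starProjection x = Fᗮ.starProjection x := by
      rw [Submodule.starProjection_orthogonal_val]
    rw [← h2] at h1
    have h3 : ‖x - F.starProjection x‖ ^ 2 ≤ ‖x‖ ^ 2 := by
      have := sq_nonneg ‖F.starProjection x‖
      linarith
    exact (sq_le_sq₀ (norm_nonneg _) (norm_nonneg _)).1 h3
  set p1 : H := b m + k m + κ • (ν n - Fm.starProjection (ν n)) with hp1
  have hp1K : p1 - b m ∈ K := by
    have h1 : ‖κ • (ν n - Fm.starProjection (ν n))‖ ≤ δ := by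
      rw [norm_smul, Real.norm_eq_abs, abs_of_pos hκpos, ← hκ0M]
      exact mul_le_mul hκle ((hnorm Fm _).trans (hνM n)) (norm_nonneg _) hκ0pos.le
    have h2 := hkmF _ (Fmᗮ.smul_mem κ hwn) h1
    convert h2 using 1
    rw [hp1]; abel
  set q : H := b n + ((1 - s) • k n + s • (kb + κ0 • (ν m - Fb.starProjection (ν m)))) with hq
  have hqK : q - b n ∈ K := by
    have h1 : ‖κ0 • (ν m - Fb.starProjection (ν m))‖ ≤ δ := by
      rw [norm_smul, Real.norm_eq_abs, abs_of_pos hκ0pos, ← hκ0M]
      exact mul_le_mul_of_nonneg_left ((hnorm Fb _).trans (hνM m)) hκ0pos.le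
    have h2 := hkbF _ (Fbᗮ.smul_mem κ0 hwm) h1
    have h3 := hK (hk n).1 h2 (sub_nonneg.2 hs1) hspos.le (by ring)
    rw [hq, add_sub_cancel_left]
    exact h3
  set P1 : H := (1 - lam) • p1 + lam • (b m + c) with hP1
  set P2 : H := (1 - lam) • q + lam • (b n + c) with hP2
  -- errors
  set e1 : H := b m + k m - y with he1
  set e2 : H := b n + k n - y with he2
  set e3 : H := kb - (y - a) with he3
  set e4 : H := Fm.starProjection (ν n) with he4
  set e5 : H := Fb.starProjection (ν m) with he5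
  have he3n : ‖e3‖ < ε := by
    rw [dist_eq_norm] at hkbz
    have h1 : -(kb - (y - a)) = y - a - kb := by abel
    rw [he3, ← norm_neg, h1]
    exact hkbz
  have hdiff : P1 - P2 = (1 - lam) • (e1 - κ • e4 - (1 - s) • e2 - s • e3 + (s * κ0) • e5) := by
    have hbm : b m = a + ν m := by simp [hν]
    have hbn : b n = a + ν n := by simp [hν]
    have hkm : k m = e1 + y - (a + ν m) := by rw [he1, hbm]; abel
    have hkn : k n = e2 + y - (a + ν n) := by rw [he2, hbn]; abel
    have hkbe : kb = e3 + (y - a) := by rw [he3]; abel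
    have hp1' : p1 = e1 + y + κ • (ν n - e4) := by
      rw [hp1, hkm, hbm]; abel
    have hq' : q = (1 - s) • (e2 + y) + s • (e3 + y + ν n + κ0 • (ν m - e5)) := by
      rw [hq, hkn, hkbe, hbn]; module
    have hl : lam • (ν m - ν n) = ((1 - lam) * (s * κ0)) • (ν m - ν n) := by rw [hlamrel]
    have : P1 - P2 = (1 - lam) • (p1 - q) + lam • (ν m - ν n) := by
      rw [hP1, hP2, hbm, hbn]; module
    rw [this, hl, hp1', hq', hκ]
    module
  have hPnorm : ‖P1 - P2‖ < lam * r := by
    rw [hdiff, norm_smul, Real.norm_eq_abs, abs_of_pos (by linarith : (0 : ℝ) < 1 - lam)]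
    have hκ1 : κ ≤ 1 := hκle.trans hκ01
    have hsκ1 : s * κ0 ≤ 1 := by
      have h1 : s * κ0 ≤ 1 * 1 := mul_le_mul hs1 hκ01 hκ0pos.le zero_le_one
      linarith
    have t1 : ‖e1‖ ≤ ε := hm1.le
    have t2 : ‖κ • e4‖ ≤ ε := by
      rw [norm_smul, Real.norm_eq_abs, abs_of_pos hκpos]
      calc κ * ‖e4‖ ≤ 1 * ε := mul_le_mul hκ1 hn2.le (norm_nonneg _) zero_le_one
        _ = ε := one_mul _
    have t3 : ‖(1 - s) • e2‖ ≤ ε := by
      rw [norm_smul, Real.norm_eq_abs, abs_of_nonneg (by linarith : (0 : ℝ) ≤ 1 - s)]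
      calc (1 - s) * ‖e2‖ ≤ 1 * ε :=
            mul_le_mul (by linarith) hn1.le (norm_nonneg _) zero_le_one
        _ = ε := one_mul _
    have t4 : ‖s • e3‖ ≤ ε := by
      rw [norm_smul, Real.norm_eq_abs, abs_of_pos hspos]
      calc s * ‖e3‖ ≤ 1 * ε := mul_le_mul hs1 he3n.le (norm_nonneg _) zero_le_one
        _ = ε := one_mul _
    have t5 : ‖(s * κ0) • e5‖ ≤ ε := by
      rw [norm_smul, Real.norm_eq_abs, abs_of_pos hsκ]
      calc (s * κ0) * ‖e5‖ ≤ 1 * ε := mul_le_mul hsκ1 hm2.le (norm_nonneg _) zero_le_one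
        _ = ε := one_mul _
    have t6 : ‖e1 - κ • e4 - (1 - s) • e2 - s • e3 + (s * κ0) • e5‖ ≤ 5 * ε := by
      have a1 := norm_add_le (e1 - κ • e4 - (1 - s) • e2 - s • e3) ((s * κ0) • e5)
      have a2 := norm_sub_le (e1 - κ • e4 - (1 - s) • e2) (s • e3)
      have a3 := norm_sub_le (e1 - κ • e4) ((1 - s) • e2)
      have a4 := norm_sub_le e1 (κ • e4)
      linarith
    calc (1 - lam) * ‖e1 - κ • e4 - (1 - s) • e2 - s • e3 + (s * κ0) • e5‖
        ≤ 1 * (5 * ε) := mul_le_mul (by linarith) t6 (norm_nonneg _) zero_le_one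
      _ = 5 / 16 * (lam * r) := by rw [hε]; ring
      _ < lam * r := by
          have : 0 < lam * r := mul_pos hlampos hr
          linarith
  have hin1 : P2 ∈ interior (tr (b m) K) := by
    rw [mem_interior_iff_mem_nhds, Metric.mem_nhds_iff]
    refine ⟨lam * r - ‖P1 - P2‖, by linarith, fun x hx => ?_⟩
    rw [Metric.mem_ball, dist_eq_norm] at hx
    refine ball_mem_tr hK hc hp1K hlampos hlam1.le ?_
    rw [← hP1]
    have h1 : x - P1 = (x - P2) - (P1 - P2) := by abel
    rw [h1]
    have := norm_sub_le (x - P2) (P1 - P2)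
    linarith
  have hin2 : P2 ∈ interior (tr (b n) K) := by
    rw [mem_interior_iff_mem_nhds, Metric.mem_nhds_iff]
    refine ⟨lam * r, mul_pos hlampos hr, fun x hx => ?_⟩
    rw [Metric.mem_ball, dist_eq_norm] at hx
    exact ball_mem_tr hK hc hqK hlampos hlam1.le (by rw [← hP2]; exact hx.le)
  exact Set.disjoint_left.1 (hdisj m n hbne) hin1 hin2

end Pool.Agent.Lib.MP_3191e9_an_helper66
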