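import Pool.Agent.Lib.MP_3191e9_an_helper66.Pack

/-!
Helper file (helper66) for `MP_3191e9_an`: no tiling of the separable Hilbert space by
translates of a bounded convex body with enough shallow points.
-/

open Filter Topology Set
open scoped RealInnerProductSpace

namespace Pool.Agent.Lib.MP_3191e9_an_helper66

variable {H : Type*} [NormedAddCommGroup H] [InnerProductSpace ℝ H]

/-- Tilings by translates. -/
structure IsTil (K A : Set H) : Prop where
  cover : ∀ x, ∃ a ∈ A, x ∈ tr a K
  disj : ∀ a ∈ A, ∀ b ∈ A, a ≠ b → Disjoint (interior (tr a K)) (interior (tr b K))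

omit [InnerProductSpace ℝ H] in
theorem interior_tr (a : H) (K : Set H) : interior (tr a K) = tr a (interior K) := by
  have : tr a K = (Homeomorph.subRight a) ⁻¹' K := rfl
  rw [this, ← (Homeomorph.subRight a).preimage_interior]
  rfl

omit [InnerProductSpace ℝ H] in
theorem closure_tr (a : H) (K : Set H) : closure (tr a K) = tr a (closure K) := by
  have : tr a K = (Homeomorph.subRight a) ⁻¹' K := rfl
  rw [this, ← (Homeomorph.subRight a).preimage_closure]
  rfl

theorem tr_subset_closure_interior {K : Set H} (hK : Convex ℝ K) (hi : (interior K).Nonempty)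
    (a : H) : tr a K ⊆ closure (interior (tr a K)) := by
  rw [interior_tr, closure_tr]
  intro x hx
  exact (hK.closure_interior_eq_closure_of_nonempty_interior hi ▸ subset_closure hx :
    x - a ∈ closure (interior K))

/-- Interior of one tile does not meet another tile. -/
theorem disj_interior_tile {K A : Set H} (hK : Convex ℝ K) (hi : (interior K).Nonempty)
    (hA : IsTil K A) {a b : H} (ha : a ∈ A) (hb : b ∈ A) (hab : a ≠ b) :
    Disjoint (interior (tr a K)) (tr b K) := by
  have h := hA.disj a ha b hb hab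
  have h2 := h.closure_right isOpen_interior
  exact h2.mono_right (tr_subset_closure_interior hK hi b)

/-- Separation of the interior of one tile from another tile by a vector. -/
theorem exists_sep [CompleteSpace H] {K A : Set H} (hK : Convex ℝ K)
    (hi : (interior K).Nonempty)
    (hA : IsTil K A) {a b : H} (ha : a ∈ A) (hb : b ∈ A) (hab : a ≠ b) :
    ∃ g : H, ∃ t : ℝ, (∀ x ∈ interior (tr a K), ⟪g, x⟫ < t) ∧ ∀ x ∈ tr b K, t ≤ ⟪g, x⟫ := by
  obtain ⟨f, t, h1, h2⟩ := geometric_hahn_banach_open (convex_tr hK a).interior isOpen_interior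
    (convex_tr hK b) (disj_interior_tile hK hi hA ha hb hab)
  refine ⟨(InnerProductSpace.toDual ℝ H).symm f, t, fun x hx => ?_, fun x hx => ?_⟩
  · rw [InnerProductSpace.toDual_symm_apply]; exact h1 x hx
  · rw [InnerProductSpace.toDual_symm_apply]; exact h2 x hx

/-- Near a shallow point of a tile there are points of infinitely many other tiles. -/
theorem exists_other [CompleteSpace H] {K A : Set H} (hK : Convex ℝ K)
    (hi : (interior K).Nonempty) (hA : IsTil K A) {a y : H} (ha : a ∈ A)
    (hy : y - a ∈ shallow K) (B : Finset H) (hB : ∀ b ∈ B, b ∈ A) {η : ℝ} (hη : 0 < η) :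
    ∃ b ∈ A, b ∉ B ∧ b ≠ a ∧ ∃ p ∈ interior (tr b K), ‖p - y‖ < η := by
  classical
  -- an interior point of the tile near `y`, not deep
  have hsh := hy.2 (η / 4) (by positivity)
  have hyc : y ∈ closure (interior (tr a K)) :=
    tr_subset_closure_interior hK hi a hy.1
  have hnhds : {x : H | x - a ∉ closure (deepPts K (η / 4))} ∩ Metric.ball y (η / 4) ∈ 𝓝 y := by
    refine inter_mem ?_ (Metric.ball_mem_nhds y (by positivity))
    have ho : IsOpen {x : H | x - a ∉ closure (deepPts K (η / 4))} :=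
      (isClosed_closure.isOpen_compl).preimage (continuous_id.sub continuous_const)
    exact ho.mem_nhds hsh
  obtain ⟨x0, ⟨hx1, hx2⟩, hx3⟩ := mem_closure_iff_nhds.1 hyc _ hnhds
  have hx0K : x0 - a ∈ K := mem_tr.1 (interior_subset hx3)
  have hx0d : x0 - a ∉ deepPts K (η / 4) := fun h => hx1 (subset_closure h)
  -- separating vectors
  have hsep : ∀ b : H, ∃ g : H, ∃ t : ℝ, b ∈ B → b ≠ a →
      ((∀ x ∈ interior (tr a K), ⟪g, x⟫ < t) ∧ ∀ x ∈ tr b K, t ≤ ⟪g, x⟫) := by
    intro b
    by_cases h : b ∈ B ∧ b ≠ a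
    · obtain ⟨g, t, h1, h2⟩ := exists_sep hK hi hA ha (hB b h.1) h.2.symm
      exact ⟨g, t, fun _ _ => ⟨h1, h2⟩⟩
    · exact ⟨0, 0, fun h1 h2 => (h ⟨h1, h2⟩).elim⟩
  choose g t hgt using hsep
  set F : Submodule ℝ H := Submodule.span ℝ ((B.image g : Finset H) : Set H) with hF
  have hFfin : FiniteDimensional ℝ F := FiniteDimensional.span_finset ℝ _
  have hnot : ¬ ∀ v ∈ Fᗮ, ‖v‖ ≤ η / 4 → x0 - a + v ∈ K := fun h =>
    hx0d ⟨hx0K, F, hFfin, h⟩
  push Not at hnot
  obtain ⟨v, hvF, hvn, hvK⟩ := hnot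
  obtain ⟨b, hbA, hb⟩ := hA.cover (x0 + v)
  have hba : b ≠ a := by
    rintro rfl
    apply hvK
    have := mem_tr.1 hb
    convert this using 1
    abel
  have hbB : b ∉ B := by
    intro hbB
    obtain ⟨h1, h2⟩ := hgt b hbB hba
    have h3 := h2 _ hb
    have h4 := h1 _ hx3
    have h5 : ⟪g b, v⟫ = 0 := by
      refine (Submodule.mem_orthogonal _ _).1 hvF _ ?_
      exact Submodule.subset_span (by simpa using ⟨b, hbB, rfl⟩)
    rw [inner_add_right, h5] at h3
    linarith
  obtain ⟨p, hp1, hp2⟩ := Metric.mem_closure_iff.1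
    (tr_subset_closure_interior hK hi b hb) (η / 4) (by positivity)
  refine ⟨b, hbA, hbB, hba, p, hp1, ?_⟩
  have e : p - y = (p - (x0 + v)) + (x0 - y) + v := by abel
  rw [e]
  have n1 := norm_add_le ((p - (x0 + v)) + (x0 - y)) v
  have n2 := norm_add_le (p - (x0 + v)) (x0 - y)
  have n3 : ‖x0 - y‖ < η / 4 := by rwa [Metric.mem_ball, dist_eq_norm] at hx2
  have n4 : ‖p - (x0 + v)‖ < η / 4 := by rwa [dist_comm, dist_eq_norm] at hp2
  linarith

/-- A sequence of distinct tiles approaching a shallow point. -/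
theorem exists_tiles [CompleteSpace H] {K A : Set H} (hK : Convex ℝ K)
    (hi : (interior K).Nonempty) (hA : IsTil K A) {a y : H} (ha : a ∈ A)
    (hy : y - a ∈ shallow K) :
    ∃ b p : ℕ → H, (∀ n, b n ∈ A) ∧ (∀ n, b n ≠ a) ∧ Function.Injective b ∧
      (∀ n, p n ∈ interior (tr (b n) K)) ∧ Tendsto p atTop (𝓝 y) := by
  classical
  obtain ⟨f, hf1, hf2⟩ := exists_seq_of_forall_finset_exists
    (α := {x : H × H × ℝ // x.1 ∈ A ∧ x.1 ≠ a ∧ x.2.1 ∈ interior (tr x.1 K) ∧
      ‖x.2.1 - y‖ < x.2.2 ∧ 0 < x.2.2 ∧ x.2.2 ≤ 1})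
    (fun _ => True) (fun x x' => x.1.1 ≠ x'.1.1 ∧ x'.1.2.2 ≤ x.1.2.2 / 2) (by
      intro s _
      set B : Finset H := s.image (fun x => x.1.1) with hB
      set η : ℝ := (insert (1 : ℝ) (s.image (fun x => x.1.2.2 / 2))).min' (by simp) with hη
      have hηpos : 0 < η := by
        rw [hη, Finset.lt_min'_iff]
        intro z hz
        rw [Finset.mem_insert] at hz
        rcases hz with rfl | hz
        · norm_num
        · obtain ⟨x, -, rfl⟩ := Finset.mem_image.1 hz
          have := x.2.2.2.2.2.1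
          linarith
      have hη1 : η ≤ 1 := Finset.min'_le _ _ (by simp)
      have hηx : ∀ x ∈ s, η ≤ x.1.2.2 / 2 := fun x hx =>
        Finset.min'_le _ _ (Finset.mem_insert_of_mem (Finset.mem_image_of_mem _ hx))
      obtain ⟨b, hb1, hb2, hb3, p, hp1, hp2⟩ := exists_other hK hi hA ha hy B (by
        intro b hb
        obtain ⟨x, -, rfl⟩ := Finset.mem_image.1 hb
        exact x.2.1) hηpos
      refine ⟨⟨(b, p, η), hb1, hb3, hp1, hp2, hηpos, hη1⟩, trivial, fun x hx => ⟨?_, hηx x hx⟩⟩
      intro h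
      have h' : x.1.1 = b := h
      exact hb2 (h' ▸ Finset.mem_image_of_mem (fun x => x.1.1) hx))
  refine ⟨fun n => (f n).1.1, fun n => (f n).1.2.1, fun n => (f n).2.1, fun n => (f n).2.2.1,
    ?_, fun n => (f n).2.2.2.1, ?_⟩
  · intro m n hmn
    rcases lt_trichotomy m n with h | h | h
    · exact ((hf2 m n h).1 hmn).elim
    · exact h
    · exact ((hf2 n m h).1 hmn.symm).elim
  · have hle : ∀ n, (f n).1.2.2 ≤ (1 / 2 : ℝ) ^ n := by
      intro n
      induction n with
      | zero => simpa using (f 0).2.2.2.2.2.2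
      | succ n ih =>
        have := (hf2 n (n + 1) (Nat.lt_succ_self n)).2
        rw [pow_succ]
        linarith
    rw [tendsto_iff_norm_sub_tendsto_zero]
    refine squeeze_zero (fun n => norm_nonneg _)
      (fun n => ((f n).2.2.2.2.1.le.trans (hle n)))
      (tendsto_pow_atTop_nhds_zero_of_lt_one (by norm_num) (by norm_num))

/-- Moving from a shallow point of a tile out of any given tile. -/
theorem exists_leave [CompleteSpace H] {K A : Set H} (hK : Convex ℝ K)
    (hi : (interior K).Nonempty) (hbd : Bornology.IsBounded K) (hA : IsTil K A)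
    (hG : ManyShallow K) {a y : H} (ha : a ∈ A)
    (hy : y - a ∈ shallow K) {b : H} (hb : b ∈ A) {ε : ℝ} (hε : 0 < ε) :
    ∃ a' ∈ A, ∃ y' : H, y' - a' ∈ shallow K ∧ ‖y' - y‖ < ε ∧ y' ∉ tr b K := by
  obtain ⟨δ, hδ, hGδ⟩ := hG (ε / 2) (by positivity)
  by_cases hba : b = a
  · subst hba
    obtain ⟨c, p, hcA, hcb, hcinj, hcp, hlim⟩ := exists_tiles hK hi hA ha hy
    -- not all the points can be deep
    obtain ⟨n, hn1, hn2⟩ : ∃ n, p n - c n ∉ deepPts K δ ∧ ‖p n - y‖ < ε / 2 := by
      by_contra hcon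
      push Not at hcon
      have hev : ∀ᶠ n in atTop, ‖p n - y‖ < ε / 2 := by
        have := Metric.tendsto_nhds.1 hlim (ε / 2) (by positivity)
        simpa [dist_eq_norm] using this
      obtain ⟨N, hN⟩ := eventually_atTop.1 hev
      obtain ⟨c0, hc0⟩ := hi
      obtain ⟨r, hr, hrK⟩ := Metric.mem_nhds_iff.1 (mem_interior_iff_mem_nhds.1 hc0)
      obtain ⟨R, hR⟩ := hbd.exists_norm_le
      have hdeep : ∀ n, p (N + n) - c (N + n) ∈ deepPts K δ := by
        intro n
        by_contra h
        have := hcon (N + n) h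
        have h2 := hN (N + n) (Nat.le_add_right _ _)
        linarith
      refine no_deep_phantoms hK (c := c0) (r := r / 2) (by positivity)
        ((Metric.closedBall_subset_ball (by linarith)).trans hrK) hδ
        (b := fun n => c (N + n)) (k := fun n => p (N + n) - c (N + n))
        (fun m n h => Nat.add_left_cancel (hcinj h))
        (fun m n h => hA.disj _ (hcA _) _ (hcA _) h) hdeep
        (B := ‖y‖ + ε / 2 + R) ?_ (y := y) ?_
      · intro n
        have h1 : c (N + n) = y + (p (N + n) - y) - (p (N + n) - c (N + n)) := by abel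
        have h2 := hR _ (mem_tr.1 (interior_subset (hcp (N + n))))
        have h3 := hN (N + n) (Nat.le_add_right _ _)
        have h4 := norm_sub_le (y + (p (N + n) - y)) (p (N + n) - c (N + n))
        have h5 := norm_add_le y (p (N + n) - y)
        show ‖c (N + n)‖ ≤ _
        rw [h1]
        linarith
      · have : Tendsto (fun n => p (N + n)) atTop (𝓝 y) := by
          have h1 := (tendsto_add_atTop_iff_nat N).2 hlim
          simpa [add_comm] using h1
        refine this.congr fun n => ?_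
        show p (N + n) = c (N + n) + (p (N + n) - c (N + n))
        abel
    obtain ⟨g, t, hg1, hg2⟩ := exists_sep hK hi hA (hcA n) hb (hcb n)
    obtain ⟨v, hvF, hvn, hvs⟩ := hGδ _ (mem_tr.1 (interior_subset (hcp n))) hn1
      (Submodule.span ℝ {g}) inferInstance
    refine ⟨c n, hcA n, p n + v, ?_, ?_, fun hmem => ?_⟩
    · convert hvs using 1
      abel
    · have e : p n + v - y = (p n - y) + v := by abel
      rw [e]
      have := norm_add_le (p n - y) v
      linarith
    · have h1 := hg2 _ hmem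
      have h2 := hg1 _ (hcp n)
      have h3 : ⟪g, v⟫ = 0 :=
        (Submodule.mem_orthogonal _ _).1 hvF _ (Submodule.mem_span_singleton_self g)
      rw [inner_add_right, h3] at h1
      linarith
  · -- stay in the tile `a`
    have hab : a ≠ b := fun h => hba h.symm
    have hsh := hy.2 δ hδ
    have hyc : y ∈ closure (interior (tr a K)) :=
      tr_subset_closure_interior hK hi a hy.1
    have hnhds : {x : H | x - a ∉ closure (deepPts K δ)} ∩ Metric.ball y (ε / 2) ∈ 𝓝 y := by
      refine inter_mem ?_ (Metric.ball_mem_nhds y (by positivity))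
      have ho : IsOpen {x : H | x - a ∉ closure (deepPts K δ)} :=
        (isClosed_closure.isOpen_compl).preimage (continuous_id.sub continuous_const)
      exact ho.mem_nhds hsh
    obtain ⟨x0, ⟨hx1, hx2⟩, hx3⟩ := mem_closure_iff_nhds.1 hyc _ hnhds
    have hx0K : x0 - a ∈ K := mem_tr.1 (interior_subset hx3)
    have hx0d : x0 - a ∉ deepPts K δ := fun h => hx1 (subset_closure h)
    obtain ⟨g, t, hg1, hg2⟩ := exists_sep hK hi hA ha hb hab
    obtain ⟨v, hvF, hvn, hvs⟩ := hGδ _ hx0K hx0d (Submodule.span ℝ {g}) inferInstance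
    refine ⟨a, ha, x0 + v, ?_, ?_, fun hmem => ?_⟩
    · convert hvs using 1
      abel
    · have e : x0 + v - y = (x0 - y) + v := by abel
      rw [e]
      have := norm_add_le (x0 - y) v
      have n3 : ‖x0 - y‖ < ε / 2 := by rwa [Metric.mem_ball, dist_eq_norm] at hx2
      linarith
    · have h1 := hg2 _ hmem
      have h2 := hg1 _ hx3
      have h3 : ⟪g, v⟫ = 0 :=
        (Submodule.mem_orthogonal _ _).1 hvF _ (Submodule.mem_span_singleton_self g)
      rw [inner_add_right, h3] at h1
      linarith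

/-- In an infinite dimensional space the orthogonal complement of a finite dimensional
subspace contains vectors of any given length. -/
theorem exists_orth (hH : ¬ FiniteDimensional ℝ H) (F : Submodule ℝ H)
    [FiniteDimensional ℝ F] {δ : ℝ} (hδ : 0 ≤ δ) : ∃ v ∈ Fᗮ, ‖v‖ = δ := by
  have h1 : Fᗮ ≠ ⊥ := by
    intro h
    have h2 : F = ⊤ := by
      rw [← Submodule.orthogonal_eq_bot_iff]; exact h
    apply hH
    have : FiniteDimensional ℝ (⊤ : Submodule ℝ H) := h2 ▸ (inferInstance)
    exact Module.finite_def.2 (Module.Finite.iff_fg.1 this)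
  obtain ⟨w, hw, hw0⟩ := Submodule.exists_mem_ne_zero_of_ne_bot h1
  have hwn : ‖w‖ ≠ 0 := norm_ne_zero_iff.2 hw0
  refine ⟨(δ / ‖w‖) • w, Fᗮ.smul_mem _ hw, ?_⟩
  rw [norm_smul, Real.norm_eq_abs, abs_of_nonneg (div_nonneg hδ (norm_nonneg _)),
    div_mul_cancel₀ _ hwn]

/-- A bounded set has points which are not deep. -/
theorem exists_not_deep (hH : ¬ FiniteDimensional ℝ H) {K : Set H} (hne : K.Nonempty)
    (hbd : Bornology.IsBounded K) {δ : ℝ} (hδ : 0 < δ) : ∃ x ∈ K, x ∉ deepPts K δ := by
  by_contra hcon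
  push Not at hcon
  obtain ⟨R, hR⟩ := hbd.exists_norm_le
  have key : ∀ n : ℕ, ∃ x ∈ K, (n : ℝ) * δ ^ 2 ≤ ‖x‖ ^ 2 := by
    intro n
    induction n with
    | zero =>
      obtain ⟨x, hx⟩ := hne
      exact ⟨x, hx, by simp⟩
    | succ n ih =>
      obtain ⟨x, hx, hxn⟩ := ih
      obtain ⟨-, F, hF, hxF⟩ := hcon x hx
      obtain ⟨v, hv, hvn⟩ := exists_orth hH F hδ.le
      rcases le_total 0 ⟪x, v⟫ with h | h
      · refine ⟨x + v, hxF v hv hvn.le, ?_⟩
        rw [norm_add_sq_real, hvn]
        push_cast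
        linarith
      · refine ⟨x + -v, hxF (-v) (Fᗮ.neg_mem hv) (by rw [norm_neg]; exact hvn.le), ?_⟩
        rw [norm_add_sq_real, norm_neg, hvn, inner_neg_right]
        push_cast
        linarith
  obtain ⟨n, hn⟩ := exists_nat_gt (R ^ 2 / δ ^ 2)
  obtain ⟨x, hx, hxn⟩ := key n
  have h1 := hR x hx
  have h2 : ‖x‖ ^ 2 ≤ R ^ 2 := pow_le_pow_left₀ (norm_nonneg _) h1 2
  rw [div_lt_iff₀ (by positivity)] at hn
  linarith

/-- **Main theorem.** -/
theorem no_tiling [CompleteSpace H] [TopologicalSpace.SeparableSpace H]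
    (hH : ¬ FiniteDimensional ℝ H) {K : Set H} (hK : Convex ℝ K)
    (hi : (interior K).Nonempty) (hcl : IsClosed K) (hbd : Bornology.IsBounded K)
    (hG : ManyShallow K) (A : Set H) : ¬ IsTil K A := by
  intro hA
  have hKne : K.Nonempty := hi.mono interior_subset
  obtain ⟨a0, ha0, -⟩ := hA.cover 0
  obtain ⟨δ, hδ, hGδ⟩ := hG 1 one_pos
  obtain ⟨x0, hx0, hx0d⟩ := exists_not_deep hH hKne hbd hδ
  obtain ⟨v, -, -, hvs⟩ := hGδ x0 hx0 hx0d ⊥ inferInstance
  set S : Set H := {y | ∃ a ∈ A, y - a ∈ shallow K} with hS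
  have hSne : S.Nonempty := ⟨x0 + v + a0, a0, ha0, by rwa [add_sub_cancel_right]⟩
  set X : Set H := closure S with hX
  have hXc : IsClosed X := isClosed_closure
  have : CompleteSpace X := hXc.completeSpace_coe
  have : Nonempty X := (hSne.mono subset_closure).to_subtype
  have hcount : A.Countable := by
    have hpd : A.PairwiseDisjoint (fun a => interior (tr a K)) := fun a ha b hb hab =>
      hA.disj a ha b hb hab
    refine hpd.countable_of_isOpen (fun a _ => isOpen_interior) fun a _ => ?_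
    rw [interior_tr]
    obtain ⟨c, hc⟩ := hi
    exact ⟨c + a, by rw [mem_tr, add_sub_cancel_right]; exact hc⟩
  have : Countable A := hcount.to_subtype
  have hcov : (⋃ a : A, {x : X | (x : H) ∈ tr (a : H) K}) = univ := by
    rw [eq_univ_iff_forall]
    intro x
    obtain ⟨a, ha, hx⟩ := hA.cover x
    exact mem_iUnion.2 ⟨⟨a, ha⟩, hx⟩
  obtain ⟨⟨b, hb⟩, x, hx⟩ := nonempty_interior_of_iUnion_of_closed
    (fun a : A => (isClosed_tr hcl (a : H)).preimage continuous_subtype_val) hcov
  obtain ⟨ρ, hρ, hball⟩ := Metric.mem_nhds_iff.1 (mem_interior_iff_mem_nhds.1 hx)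
  obtain ⟨y, ⟨a, ha, hya⟩, hxy⟩ := Metric.mem_closure_iff.1 x.2 (ρ / 2) (by positivity)
  obtain ⟨a', ha', y', hya', hyy', hout⟩ :=
    exists_leave hK hi hbd hA hG ha hya hb (ε := ρ / 2) (by positivity)
  have hy'X : y' ∈ X := subset_closure ⟨a', ha', hya'⟩
  have hmem : (⟨y', hy'X⟩ : X) ∈ Metric.ball x ρ := by
    rw [Metric.mem_ball, Subtype.dist_eq]
    show dist y' (x : H) < ρ
    have h1 := dist_triangle y' y (x : H)
    rw [dist_comm] at hxy
    rw [← dist_eq_norm] at hyy'
    linarith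
  exact hout (hball hmem)

end Pool.Agent.Lib.MP_3191e9_an_helper66
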